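import Pool.Agent.Q187.Div.Transfer

/-!
# Divisor sums: hyperbola method and elementary bounds
-/

open Finset

namespace Q187.Div

/-- distance to the nearest integer -/
noncomputable def dn (x : ℝ) : ℝ := |x - round x|

/-- summatory function of the divisor function -/
noncomputable def W (n : ℕ) : ℝ := ∑ k ∈ range (n + 1), ((Nat.divisors k).card : ℝ)

/-- exponential sum with divisor weights -/
noncomputable def D (n : ℕ) (θ : ℝ) : ℂ :=
  ∑ k ∈ range (n + 1), ((Nat.divisors k).card : ℂ) * e (k * θ)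

lemma e_zero : e 0 = 1 := by simp [e]

lemma e_add (x y : ℝ) : e (x + y) = e x * e y := by
  unfold e
  rw [← Complex.exp_add]
  congr 1
  push_cast
  ring

lemma norm_e (x : ℝ) : ‖e x‖ = 1 := by
  unfold e
  exact Complex.norm_exp_ofReal_mul_I _

lemma e_intCast (m : ℤ) : e m = 1 := by
  unfold e
  rw [Complex.exp_eq_one_iff]
  refine ⟨m, ?_⟩
  push_cast
  ring

lemma e_add_int (x : ℝ) (m : ℤ) : e (x + m) = e x := by
  rw [e_add, e_intCast, mul_one]

lemma norm_e_sub_one (x : ℝ) : ‖e x - 1‖ = 2 * |Real.sin (Real.pi * x)| := by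
  have h := Complex.norm_exp_I_mul_ofReal_sub_one (2 * Real.pi * x)
  unfold e
  rw [mul_comm, h, Real.norm_eq_abs, abs_mul, abs_of_pos (by norm_num : (0 : ℝ) < 2)]
  congr 3
  ring

lemma norm_e_sub_one_le (x : ℝ) : ‖e x - 1‖ ≤ 2 * Real.pi * |x| := by
  rw [norm_e_sub_one]
  have h : |Real.sin (Real.pi * x)| ≤ |Real.pi * x| := Real.abs_sin_le_abs
  rw [abs_mul, abs_of_pos Real.pi_pos] at h
  nlinarith

lemma dn_nonneg (x : ℝ) : 0 ≤ dn x := abs_nonneg _

lemma dn_le_half (x : ℝ) : dn x ≤ 1 / 2 := abs_sub_round x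

lemma dn_le (x : ℝ) (m : ℤ) : dn x ≤ |x - m| := round_le x m

lemma dn_add_int (x : ℝ) (m : ℤ) : dn (x + m) = dn x := by
  unfold dn
  rw [round_add_intCast]
  push_cast
  congr 1
  ring

lemma dn_sub_le (x y : ℝ) : dn x - |x - y| ≤ dn y := by
  have h := dn_le x (round y)
  have h2 : |x - round y| ≤ |x - y| + |y - round y| := by
    have : x - round y = (x - y) + (y - round y) := by ring
    rw [this]; exact abs_add_le _ _
  unfold dn at *
  linarith

lemma norm_e_sub_one_ge (x : ℝ) : 4 * dn x ≤ ‖e x - 1‖ := by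
  have h1 : e x = e (x - round x) := by
    have := e_add_int (x - round x) (round x)
    rw [← this]; congr 1; ring
  rw [h1, norm_e_sub_one]
  have h2 := abs_sub_round x
  have h3 := Real.mul_abs_le_abs_sin (x := Real.pi * (x - round x)) (by
    rw [abs_mul, abs_of_pos Real.pi_pos]
    nlinarith [Real.pi_pos])
  rw [abs_mul, abs_of_pos Real.pi_pos] at h3
  have h4 : 2 / Real.pi * (Real.pi * |x - round x|) = 2 * |x - round x| := by
    field_simp
  rw [h4] at h3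
  unfold dn
  linarith

/-- geometric sums -/
lemma geom_bound (x : ℝ) (hx : 0 < dn x) (u v : ℕ) :
    ‖∑ b ∈ Ioc u v, e (b * x)‖ ≤ 1 / (2 * dn x) := by
  rcases le_or_gt v u with h | h
  · rw [Ioc_eq_empty_of_le h]; simp; exact hx.le
  have hz : ∀ b : ℕ, e (((b + 1 : ℕ) : ℝ) * x) = e (b * x) * e x := by
    intro b; rw [← e_add]; congr 1; push_cast; ring
  have key : ∀ m : ℕ, (e x - 1) * ∑ b ∈ Ioc u (u + m), e (b * x)
      = e (((u + m + 1 : ℕ) : ℝ) * x) - e (((u + 1 : ℕ) : ℝ) * x) := by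
    intro m
    induction m with
    | zero => simp
    | succ m ih =>
      rw [← add_assoc, Finset.sum_Ioc_succ_top (by omega), mul_add, ih, hz (u + m + 1)]
      ring
  obtain ⟨m, rfl⟩ := Nat.exists_eq_add_of_le h.le
  have hk := key m
  have h1 : ‖(e x - 1) * ∑ b ∈ Ioc u (u + m), e (b * x)‖ ≤ 2 := by
    rw [hk]
    refine (norm_sub_le _ _).trans ?_
    rw [norm_e, norm_e]; norm_num
  rw [norm_mul] at h1
  have h2 := norm_e_sub_one_ge x
  rw [le_div_iff₀ (by positivity)]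
  have h3 : 4 * dn x * ‖∑ b ∈ Ioc u (u + m), e (b * x)‖ ≤ 2 :=
    (mul_le_mul_of_nonneg_right h2 (norm_nonneg _)).trans h1
  nlinarith

/-- sum over pairs -/
lemma sum_pairs (g : ℕ → ℂ) (n : ℕ) :
    ∑ k ∈ range (n + 1), ((Nat.divisors k).card : ℂ) * g k
      = ∑ p ∈ (Ioc 0 n ×ˢ Ioc 0 n).filter (fun p => p.1 * p.2 ≤ n), g (p.1 * p.2) := by
  rw [← Finset.sum_fiberwise_of_maps_to (g := fun p : ℕ × ℕ => p.1 * p.2) (t := range (n + 1))]
  · refine Finset.sum_congr rfl fun k hk => ?_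
    have hk' := Finset.mem_range.mp hk
    rw [Finset.sum_congr rfl (g := fun _ => g k) (fun p hp => by
      rw [(Finset.mem_filter.mp hp).2])]
    rw [Finset.sum_const, nsmul_eq_mul]
    congr 2
    have h1 : ((Ioc 0 n ×ˢ Ioc 0 n).filter (fun p : ℕ × ℕ => p.1 * p.2 ≤ n)).filter
        (fun p => p.1 * p.2 = k) = k.divisorsAntidiagonal := by
      ext ⟨a, b⟩
      simp only [Finset.mem_filter, Finset.mem_product, Finset.mem_Ioc, Nat.mem_divisorsAntidiagonal]
      constructor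
      · rintro ⟨⟨⟨⟨ha, _⟩, hb, _⟩, _⟩, rfl⟩
        exact ⟨rfl, by positivity⟩
      · rintro ⟨rfl, h0⟩
        have ha : 0 < a := Nat.pos_of_ne_zero (fun h => h0 (by simp [h]))
        have hb : 0 < b := Nat.pos_of_ne_zero (fun h => h0 (by simp [h]))
        have h2 : a ≤ a * b := Nat.le_mul_of_pos_right a hb
        have h3 : b ≤ a * b := Nat.le_mul_of_pos_left b ha
        exact ⟨⟨⟨⟨ha, by omega⟩, hb, by omega⟩, by omega⟩, rfl⟩
    rw [h1, ← Nat.map_div_right_divisors, Finset.card_map]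
  · intro p hp
    rw [Finset.mem_filter] at hp
    exact Finset.mem_range.mpr (by omega)

/-- the hyperbola method -/
lemma hyperbola (g : ℕ → ℂ) (n : ℕ) :
    ∑ k ∈ range (n + 1), ((Nat.divisors k).card : ℂ) * g k
      = 2 * ∑ a ∈ Icc 1 (Nat.sqrt n), ∑ b ∈ Ioc a (n / a), g (a * b)
        + ∑ a ∈ Icc 1 (Nat.sqrt n), g (a * a) := by
  rw [sum_pairs]
  set P := (Ioc 0 n ×ˢ Ioc 0 n).filter (fun p : ℕ × ℕ => p.1 * p.2 ≤ n) with hP
  have hlt : ∑ p ∈ P.filter (fun p => p.1 < p.2), g (p.1 * p.2)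
      = ∑ a ∈ Icc 1 (Nat.sqrt n), ∑ b ∈ Ioc a (n / a), g (a * b) := by
    rw [Finset.sum_sigma']
    refine Finset.sum_nbij' (fun p => ⟨p.1, p.2⟩) (fun p => (p.1, p.2)) ?_ ?_ ?_ ?_ ?_
    · rintro ⟨a, b⟩ h
      simp only [hP, Finset.mem_filter, Finset.mem_product, Finset.mem_Ioc, Finset.mem_sigma,
        Finset.mem_Icc] at h ⊢
      obtain ⟨⟨⟨⟨ha, _⟩, hb, _⟩, hab⟩, hlt⟩ := h
      refine ⟨⟨ha, ?_⟩, hlt, ?_⟩
      · rw [Nat.le_sqrt]; nlinarith
      · rw [Nat.le_div_iff_mul_le ha]; rw [mul_comm]; exact hab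
    · rintro ⟨a, b⟩ h
      simp only [hP, Finset.mem_filter, Finset.mem_product, Finset.mem_Ioc, Finset.mem_sigma,
        Finset.mem_Icc] at h ⊢
      obtain ⟨⟨ha, _⟩, hlt, hb⟩ := h
      rw [Nat.le_div_iff_mul_le ha, mul_comm] at hb
      have hb0 : 0 < b := by omega
      have h2 : a ≤ a * b := Nat.le_mul_of_pos_right a hb0
      have h3 : b ≤ a * b := Nat.le_mul_of_pos_left b ha
      exact ⟨⟨⟨⟨ha, by omega⟩, hb0, by omega⟩, hb⟩, hlt⟩
    · rintro ⟨a, b⟩ _; rfl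
    · rintro ⟨a, b⟩ _; rfl
    · rintro ⟨a, b⟩ _; rfl
  have hgt : ∑ p ∈ P.filter (fun p => p.2 < p.1), g (p.1 * p.2)
      = ∑ p ∈ P.filter (fun p => p.1 < p.2), g (p.1 * p.2) := by
    refine Finset.sum_nbij' Prod.swap Prod.swap ?_ ?_ ?_ ?_ ?_
    · rintro ⟨a, b⟩ h
      simp only [hP, Finset.mem_filter, Finset.mem_product, Finset.mem_Ioc, Prod.swap] at h ⊢
      obtain ⟨⟨⟨ha, hb⟩, hab⟩, hlt⟩ := h
      exact ⟨⟨⟨hb, ha⟩, by rw [mul_comm]; exact hab⟩, hlt⟩
    · rintro ⟨a, b⟩ h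
      simp only [hP, Finset.mem_filter, Finset.mem_product, Finset.mem_Ioc, Prod.swap] at h ⊢
      obtain ⟨⟨⟨ha, hb⟩, hab⟩, hlt⟩ := h
      exact ⟨⟨⟨hb, ha⟩, by rw [mul_comm]; exact hab⟩, hlt⟩
    · rintro ⟨a, b⟩ _; rfl
    · rintro ⟨a, b⟩ _; rfl
    · rintro ⟨a, b⟩ _; simp [mul_comm]
  have heq : ∑ p ∈ P.filter (fun p => p.1 = p.2), g (p.1 * p.2)
      = ∑ a ∈ Icc 1 (Nat.sqrt n), g (a * a) := by
    refine Finset.sum_nbij' (fun p => p.1) (fun a => (a, a)) ?_ ?_ ?_ ?_ ?_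
    · rintro ⟨a, b⟩ h
      simp only [hP, Finset.mem_filter, Finset.mem_product, Finset.mem_Ioc, Finset.mem_Icc] at h ⊢
      obtain ⟨⟨⟨⟨ha, _⟩, hb, _⟩, hab⟩, rfl⟩ := h
      exact ⟨ha, Nat.le_sqrt.mpr hab⟩
    · intro a h
      simp only [hP, Finset.mem_filter, Finset.mem_product, Finset.mem_Ioc, Finset.mem_Icc] at h ⊢
      obtain ⟨ha, ha2⟩ := h
      have h1 := Nat.le_sqrt.mp ha2
      have h2 : a ≤ a * a := Nat.le_mul_of_pos_right a ha
      exact ⟨⟨⟨⟨ha, by omega⟩, ha, by omega⟩, h1⟩, trivial⟩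
    · rintro ⟨a, b⟩ h
      simp only [Finset.mem_filter] at h
      simp [h.2]
    · intro a _; rfl
    · rintro ⟨a, b⟩ h
      simp only [Finset.mem_filter] at h
      simp [h.2]
  have hsplit : ∑ p ∈ P, g (p.1 * p.2)
      = ∑ p ∈ P.filter (fun p => p.1 < p.2), g (p.1 * p.2)
        + ∑ p ∈ P.filter (fun p => p.1 = p.2), g (p.1 * p.2)
        + ∑ p ∈ P.filter (fun p => p.2 < p.1), g (p.1 * p.2) := by
    simp only [Finset.sum_filter]
    rw [← Finset.sum_add_distrib, ← Finset.sum_add_distrib]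
    refine Finset.sum_congr rfl fun p _ => ?_
    rcases lt_trichotomy p.1 p.2 with h | h | h
    · simp [h, h.ne, h.le.not_gt]
    · simp [h]
    · simp [h, h.ne', h.le.not_gt]
  rw [hsplit, hgt, hlt, heq]
  ring

lemma D_eq (n : ℕ) (θ : ℝ) :
    D n θ = 2 * ∑ a ∈ Icc 1 (Nat.sqrt n), ∑ b ∈ Ioc a (n / a), e (((a * b : ℕ) : ℝ) * θ)
        + ∑ a ∈ Icc 1 (Nat.sqrt n), e (((a * a : ℕ) : ℝ) * θ) :=
  hyperbola (fun k => e (k * θ)) n

/-! ### Size of `W` -/

lemma W_eq (n : ℕ) : W n = ∑ a ∈ Icc 1 n, ((n / a : ℕ) : ℝ) := by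
  have h := ArithmeticFunction.sum_Ioc_sigma0_eq_sum_div n
  have h1 : W n = ((∑ k ∈ Ioc 0 n, (ArithmeticFunction.sigma 0 k) : ℕ) : ℝ) := by
    unfold W
    rw [Nat.cast_sum]
    symm
    have h2 : ∀ k ∈ Ioc 0 n, ((ArithmeticFunction.sigma 0 k : ℕ) : ℝ) = ((Nat.divisors k).card : ℝ) := by
      intro k _
      rw [ArithmeticFunction.sigma_zero_apply]
    rw [Finset.sum_congr rfl h2]
    refine Finset.sum_subset ?_ ?_
    · intro k hk
      rw [Finset.mem_Ioc] at hk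
      exact Finset.mem_range.mpr (by omega)
    · intro k hk hk2
      rw [Finset.mem_range] at hk
      rw [Finset.mem_Ioc] at hk2
      have : k = 0 := by omega
      subst this
      simp
  rw [h1, h, Nat.cast_sum]
  rfl

lemma W_mono : Monotone W := by
  intro m n h
  unfold W
  exact Finset.sum_le_sum_of_subset_of_nonneg (Finset.range_mono (by omega))
    (fun _ _ _ => by positivity)

lemma W_succ (n : ℕ) : W (n + 1) = W n + ((Nat.divisors (n + 1)).card : ℝ) := by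
  unfold W; rw [Finset.sum_range_succ]

lemma le_W (n : ℕ) : (n : ℝ) ≤ W n := by
  induction n with
  | zero => simp [W]
  | succ n ih =>
    rw [W_succ]
    have : 1 ≤ (Nat.divisors (n + 1)).card := by
      rw [Nat.one_le_iff_ne_zero, Finset.card_ne_zero]
      exact ⟨1, by simp⟩
    have : (1 : ℝ) ≤ ((Nat.divisors (n + 1)).card : ℝ) := by exact_mod_cast this
    push_cast
    linarith

/-- real harmonic number -/
noncomputable def H (m : ℕ) : ℝ := ∑ a ∈ Icc 1 m, (1 : ℝ) / a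

lemma H_eq (m : ℕ) : H m = (harmonic m : ℝ) := by
  rw [harmonic_eq_sum_Icc]
  unfold H
  push_cast
  simp

lemma H_le (m : ℕ) : H m ≤ 1 + Real.log m := by
  rw [H_eq]; exact harmonic_le_one_add_log m

lemma le_H (m : ℕ) : Real.log (m + 1) ≤ H m := by
  rw [H_eq]; exact_mod_cast log_add_one_le_harmonic m

lemma W_le (n : ℕ) : W n ≤ n * (1 + Real.log n) := by
  rw [W_eq]
  have h1 : ∑ a ∈ Icc 1 n, ((n / a : ℕ) : ℝ) ≤ ∑ a ∈ Icc 1 n, (n : ℝ) * (1 / a) := by
    refine Finset.sum_le_sum fun a _ => ?_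
    have := @Nat.cast_div_le ℝ _ _ _ n a
    rw [mul_one_div]; exact this
  rw [← Finset.mul_sum] at h1
  refine h1.trans ?_
  exact mul_le_mul_of_nonneg_left (H_le n) (by positivity)

lemma le_W' (n : ℕ) : (n : ℝ) * (1 + Real.log n) / 3 ≤ W n := by
  rcases Nat.eq_zero_or_pos n with rfl | hn
  · simp [W]
  have hn' : (1 : ℝ) ≤ n := by exact_mod_cast hn
  have h1 : ∑ a ∈ Icc 1 n, (n : ℝ) / 2 * (1 / a) ≤ W n := by
    rw [W_eq]
    refine Finset.sum_le_sum fun a ha => ?_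
    rw [Finset.mem_Icc] at ha
    have ha0 : (0 : ℝ) < a := by exact_mod_cast ha.1
    have h2 : n < (n / a + 1) * a := by
      have := Nat.lt_div_mul_add (a := n) (b := a) ha.1
      linarith
    have h3 : 1 ≤ n / a := (Nat.one_le_div_iff ha.1).mpr ha.2
    have h4 : n ≤ 2 * (n / a) * a := by nlinarith
    have h5 : (n : ℝ) ≤ 2 * ((n / a : ℕ) : ℝ) * a := by exact_mod_cast h4
    rw [mul_one_div, div_div, div_le_iff₀ (by positivity)]
    linarith
  rw [← Finset.mul_sum] at h1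
  have h2 := le_H n
  have h3 : Real.log n ≤ Real.log (n + 1) := Real.log_le_log (by positivity) (by linarith)
  have h4 := le_W n
  have h5 : (n : ℝ) / 2 * Real.log n ≤ W n :=
    (mul_le_mul_of_nonneg_left (h3.trans h2) (by positivity)).trans h1
  linarith

end Q187.Div
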