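import Pool.Agent.Q187.Div.Basic

/-!
# Rational approximation
-/

open Finset

namespace Q187.Div

/-! ### sums of reciprocal distances over residues -/

lemma inv_dn_le (q x : ℕ) (hx : x < q) :
    1 / dn ((x : ℝ) / q) ≤ q * (1 / x) + q * (1 / ((q - x : ℕ) : ℝ)) := by
  rcases Nat.eq_zero_or_pos x with rfl | hx0
  · have : dn (((0 : ℕ) : ℝ) / q) = 0 := by simp [dn]
    rw [this]; simp; positivity
  have hq : (0 : ℝ) < q := by exact_mod_cast (by omega : 0 < q)
  have hx1 : (0 : ℝ) < x := by exact_mod_cast hx0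
  have hx2 : (x : ℝ) < q := by exact_mod_cast hx
  have hf : Int.fract ((x : ℝ) / q) = x / q := by
    rw [Int.fract_eq_self]
    exact ⟨by positivity, by rw [div_lt_one hq]; exact hx2⟩
  have hcast : ((q - x : ℕ) : ℝ) = q - x := by
    rw [Nat.cast_sub hx.le]
  have h1 : dn ((x : ℝ) / q) = min ((x : ℝ) / q) (1 - (x : ℝ) / q) := by
    unfold dn; rw [abs_sub_round_eq_min, hf]
  rw [h1, hcast]
  have hd : (0 : ℝ) < q - x := by linarith
  rcases min_choice ((x : ℝ) / q) (1 - x / q) with h | h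
  · rw [h, one_div_div, mul_one_div]
    have : 0 ≤ (q : ℝ) * (1 / (q - x)) := by positivity
    linarith
  · rw [h]
    have h3 : 1 - (x : ℝ) / q = (q - x) / q := by field_simp
    rw [h3, one_div_div, mul_one_div, mul_one_div]
    have : 0 ≤ (q : ℝ) / x := by positivity
    linarith

lemma sum_inv_range (q : ℕ) (hq : 0 < q) : ∑ x ∈ range q, (1 : ℝ) / x ≤ 1 + Real.log q := by
  refine le_trans ?_ (H_le q)
  unfold H
  rw [Finset.range_eq_Ico]
  have h1 : ∑ x ∈ Ico 0 q, (1 : ℝ) / x = ∑ x ∈ Ico 1 q, (1 : ℝ) / x := by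
    rw [Finset.sum_eq_sum_Ico_succ_bot hq]; simp
  rw [h1]
  refine Finset.sum_le_sum_of_subset_of_nonneg ?_ (fun _ _ _ => by positivity)
  intro x hx
  rw [Finset.mem_Ico] at hx
  rw [Finset.mem_Icc]; omega

lemma sum_inv_dn (q : ℕ) (hq : 0 < q) :
    ∑ x ∈ range q, 1 / dn ((x : ℝ) / q) ≤ 2 * q * (1 + Real.log q) := by
  have h1 : ∑ x ∈ range q, 1 / dn ((x : ℝ) / q) ≤
      ∑ x ∈ range q, ((q : ℝ) * (1 / x) + q * (1 / ((q - x : ℕ) : ℝ))) :=
    Finset.sum_le_sum fun x hx => inv_dn_le q x (Finset.mem_range.mp hx)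
  rw [Finset.sum_add_distrib, ← Finset.mul_sum, ← Finset.mul_sum] at h1
  have h2 := sum_inv_range q hq
  have h3 : ∑ x ∈ range q, (1 : ℝ) / ((q - x : ℕ) : ℝ) ≤ 1 + Real.log q := by
    refine le_trans (le_of_eq ?_) (H_le q)
    unfold H
    refine Finset.sum_nbij' (fun x => q - x) (fun x => q - x) ?_ ?_ ?_ ?_ ?_
    · intro x hx; rw [Finset.mem_range] at hx; rw [Finset.mem_Icc]; omega
    · intro x hx; rw [Finset.mem_Icc] at hx; rw [Finset.mem_range]; omega
    · intro x hx; rw [Finset.mem_range] at hx; omega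
    · intro x hx; rw [Finset.mem_Icc] at hx; omega
    · intro x hx; rfl
  have hq' : (0 : ℝ) < q := by exact_mod_cast hq
  nlinarith

/-- reindexing by a unit -/
lemma sum_inv_dn_unit (q : ℕ) (hq : 0 < q) (p : ℤ) (hp : IsCoprime p (q : ℤ)) :
    ∑ x ∈ range q, 1 / dn ((x : ℝ) * p / q) = ∑ x ∈ range q, 1 / dn ((x : ℝ) / q) := by
  have : NeZero q := ⟨by omega⟩
  have hq' : (q : ℝ) ≠ 0 := by exact_mod_cast (by omega : q ≠ 0)
  have hu : IsUnit (p : ZMod q) := by
    obtain ⟨a, b, hab⟩ := hp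
    have h1 : ((a * p + b * q : ℤ) : ZMod q) = ((1 : ℤ) : ZMod q) := by rw [hab]
    push_cast at h1
    simp at h1
    exact IsUnit.of_mul_eq_one (a : ZMod q) (by rw [mul_comm]; exact h1)
  have hsum : ∀ g : ℕ → ℝ, ∑ x ∈ range q, g x = ∑ x : ZMod q, g x.val := by
    intro g
    symm
    refine Finset.sum_nbij' (fun x => x.val) (fun x => (x : ZMod q)) ?_ ?_ ?_ ?_ ?_
    · intro x _; exact Finset.mem_range.mpr (ZMod.val_lt x)
    · intro x _; exact Finset.mem_univ _
    · intro x _; simp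
    · intro x hx; exact ZMod.val_cast_of_lt (Finset.mem_range.mp hx)
    · intro x _; rfl
  rw [hsum, hsum (fun x => 1 / dn ((x : ℝ) / q))]
  obtain ⟨u, hu⟩ := hu
  rw [← Equiv.sum_comp (Units.mulLeft u) (fun x : ZMod q => 1 / dn ((x.val : ℝ) / q))]
  refine Finset.sum_congr rfl fun x _ => ?_
  rw [Units.mulLeft_apply, hu]
  -- the two arguments differ by an integer
  have h2 : ((((x.val : ℤ) * p - (((p : ZMod q) * x).val : ℤ) : ℤ)) : ZMod q) = 0 := by
    push_cast
    rw [ZMod.natCast_zmod_val, ZMod.natCast_zmod_val]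
    ring
  rw [ZMod.intCast_zmod_eq_zero_iff_dvd] at h2
  obtain ⟨c, hc⟩ := h2
  have h3 : (x.val : ℝ) * p / q = (((p : ZMod q) * x).val : ℝ) / q + c := by
    have hc' : (x.val : ℝ) * p - (((p : ZMod q) * x).val : ℝ) = q * c := by exact_mod_cast hc
    field_simp
    linarith
  rw [h3, dn_add_int]

lemma sum_inv_dn_A (A q : ℕ) (hq : 0 < q) (p : ℤ) (hp : IsCoprime p (q : ℤ)) :
    ∑ x ∈ range (A + 1), 1 / dn ((x : ℝ) * p / q) ≤ (A / q + 1 : ℕ) * (2 * q * (1 + Real.log q)) := by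
  have hq' : (q : ℝ) ≠ 0 := by exact_mod_cast (by omega : q ≠ 0)
  have h1 : ∀ m : ℕ, ∑ x ∈ range (m * q), 1 / dn ((x : ℝ) * p / q)
      ≤ m * (2 * q * (1 + Real.log q)) := by
    intro m
    induction m with
    | zero => simp
    | succ m ih =>
      rw [Nat.succ_mul, Finset.sum_range_add]
      have h2 : ∑ x ∈ range q, 1 / dn (((m * q + x : ℕ) : ℝ) * p / q)
          = ∑ x ∈ range q, 1 / dn ((x : ℝ) * p / q) := by
        refine Finset.sum_congr rfl fun x _ => ?_
        congr 1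
        have : ((m * q + x : ℕ) : ℝ) * p / q = (x : ℝ) * p / q + ((m * p : ℤ) : ℝ) := by
          push_cast; field_simp; ring
        rw [this, dn_add_int]
      rw [h2, sum_inv_dn_unit q hq p hp]
      have h3 := sum_inv_dn q hq
      push_cast
      linarith
  refine le_trans ?_ (h1 (A / q + 1))
  refine Finset.sum_le_sum_of_subset_of_nonneg ?_ (fun _ _ _ => ?_)
  · apply Finset.range_mono
    have := Nat.lt_div_mul_add (a := A) (b := q) hq
    rw [Nat.succ_mul]; omega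
  · exact one_div_nonneg.mpr (dn_nonneg _)

/-! ### best denominators -/

lemma exists_den (θ : ℝ) (s : ℕ) : ∃ q : ℕ, 0 < q ∧ dn (q * θ) ≤ 1 / 2 ^ (s + 2) := by
  obtain ⟨k, hk0, _, hk⟩ := Real.exists_nat_abs_mul_sub_round_le θ (n := 2 ^ (s + 2)) (by positivity)
  refine ⟨k, hk0, ?_⟩
  unfold dn
  refine hk.trans ?_
  apply one_div_le_one_div_of_le (by positivity)
  push_cast
  linarith

open Classical in
/-- the minimal denominator at scale `s` -/
noncomputable def qs (θ : ℝ) (s : ℕ) : ℕ := Nat.find (exists_den θ s)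

variable (θ : ℝ) (s : ℕ)

lemma qs_pos : 0 < qs θ s := by
  classical
  exact (Nat.find_spec (exists_den θ s)).1

lemma qs_dn : dn (qs θ s * θ) ≤ 1 / 2 ^ (s + 2) := by
  classical
  exact (Nat.find_spec (exists_den θ s)).2

lemma qs_min {m : ℕ} (h0 : 0 < m) (hm : dn (m * θ) ≤ 1 / 2 ^ (s + 2)) : qs θ s ≤ m := by
  classical
  exact Nat.find_min' (exists_den θ s) ⟨h0, hm⟩

lemma qs_le : qs θ s ≤ 2 ^ (s + 2) := by
  obtain ⟨k, hk0, hk1, hk⟩ := Real.exists_nat_abs_mul_sub_round_le θ (n := 2 ^ (s + 2)) (by positivity)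
  refine (qs_min θ s hk0 ?_).trans hk1
  unfold dn
  refine hk.trans ?_
  apply one_div_le_one_div_of_le (by positivity)
  push_cast
  linarith

lemma qs_mono_succ : qs θ s ≤ qs θ (s + 1) := by
  apply qs_min θ s (qs_pos θ (s + 1))
  refine (qs_dn θ (s + 1)).trans ?_
  apply one_div_le_one_div_of_le (by positivity)
  exact pow_le_pow_right₀ (by norm_num) (by omega)

/-- the numerator -/
noncomputable def ps : ℤ := round (qs θ s * θ)

/-- the error -/
noncomputable def et : ℝ := qs θ s * θ - ps θ s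

lemma abs_et : |et θ s| = dn (qs θ s * θ) := rfl

lemma abs_et_le : |et θ s| ≤ 1 / 2 ^ (s + 2) := qs_dn θ s

lemma qs_coprime : IsCoprime (ps θ s) (qs θ s : ℤ) := by
  rw [Int.isCoprime_iff_gcd_eq_one]
  set g := Int.gcd (ps θ s) (qs θ s) with hg
  have hgpos : 0 < g := Int.gcd_pos_of_ne_zero_right _ (by exact_mod_cast (qs_pos θ s).ne')
  by_contra hne
  have hg2 : 2 ≤ g := by omega
  obtain ⟨a, ha⟩ : (g : ℤ) ∣ ps θ s := Int.gcd_dvd_left ..
  have hb' : (g : ℤ) ∣ (qs θ s : ℤ) := Int.gcd_dvd_right ..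
  obtain ⟨b, hb⟩ : g ∣ qs θ s := by exact_mod_cast hb'
  have hq := qs_pos θ s
  have hb0 : 0 < b := by
    rcases Nat.eq_zero_or_pos b with h | h
    · rw [h] at hb; omega
    · exact h
  have hgR : (0 : ℝ) < g := by exact_mod_cast hgpos
  have h1 : dn (b * θ) ≤ 1 / 2 ^ (s + 2) := by
    refine (dn_le _ a).trans ?_
    have h2 : et θ s = g * (b * θ - a) := by
      unfold et
      rw [ha, hb]; push_cast; ring
    have h3 : |et θ s| = g * |b * θ - a| := by
      rw [h2, abs_mul, abs_of_pos hgR]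
    have h4 := abs_et_le θ s
    have h5 : |b * θ - a| ≤ g * |b * θ - a| := by
      have : (1 : ℝ) ≤ g := by exact_mod_cast hgpos
      nlinarith [abs_nonneg ((b : ℝ) * θ - a)]
    linarith
  have h6 := qs_min θ s hb0 h1
  have h7 : b < qs θ s := by
    rw [hb]; nlinarith
  omega

/-- a new denominator is large -/
lemma qs_new (h : qs θ (s + 1) ≠ qs θ s) : (4 : ℝ) / 3 * 2 ^ (s + 1) ≤ qs θ (s + 1) := by
  have hlt : qs θ s < qs θ (s + 1) := lt_of_le_of_ne (qs_mono_succ θ s) (Ne.symm h)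
  have h1 : 1 / 2 ^ (s + 3) < |et θ s| := by
    by_contra hc
    rw [not_lt] at hc
    have := qs_min θ (s + 1) (qs_pos θ s) hc
    omega
  have h2 : |et θ (s + 1)| ≤ 1 / 2 ^ (s + 3) := abs_et_le θ (s + 1)
  have h3 := abs_et_le θ s
  set q : ℝ := (qs θ s : ℝ) with hq
  set q' : ℝ := (qs θ (s + 1) : ℝ) with hq'
  have hq0 : 0 < q := by rw [hq]; exact_mod_cast qs_pos θ s
  have hqq : q < q' := by rw [hq, hq']; exact_mod_cast hlt
  -- the integer
  have h4 : q * et θ (s + 1) - q' * et θ s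
      = ((ps θ s * qs θ (s + 1) - ps θ (s + 1) * qs θ s : ℤ) : ℝ) := by
    unfold et; push_cast; rw [← hq, ← hq']; ring
  have h5 : (ps θ s * qs θ (s + 1) - ps θ (s + 1) * qs θ s : ℤ) ≠ 0 := by
    intro h0
    rw [h0] at h4
    push_cast at h4
    have h6 : q * |et θ (s + 1)| = q' * |et θ s| := by
      have : q * et θ (s + 1) = q' * et θ s := by linarith
      have h7 := congrArg abs this
      rwa [abs_mul, abs_mul, abs_of_pos hq0, abs_of_pos (hq0.trans hqq)] at h7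
    have h8 : |et θ s| ≤ |et θ (s + 1)| := by
      have h9 : q * |et θ s| ≤ q' * |et θ s| :=
        mul_le_mul_of_nonneg_right hqq.le (abs_nonneg _)
      rw [← h6] at h9
      exact le_of_mul_le_mul_left h9 hq0
    linarith
  have h6 : (1 : ℝ) ≤ |q * et θ (s + 1) - q' * et θ s| := by
    rw [h4]
    have : (1 : ℤ) ≤ |(ps θ s * qs θ (s + 1) - ps θ (s + 1) * qs θ s : ℤ)| := Int.one_le_abs h5
    exact_mod_cast this
  have h7 : |q * et θ (s + 1) - q' * et θ s| ≤ q * |et θ (s + 1)| + q' * |et θ s| := by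
    refine (abs_sub _ _).trans (le_of_eq ?_)
    rw [abs_mul, abs_mul, abs_of_pos hq0, abs_of_pos (hq0.trans hqq)]
  have h8 : q * |et θ (s + 1)| ≤ q' * (1 / 2 ^ (s + 3)) :=
    mul_le_mul hqq.le h2 (abs_nonneg _) (hq0.trans hqq).le
  have h9 : q' * |et θ s| ≤ q' * (1 / 2 ^ (s + 2)) :=
    mul_le_mul_of_nonneg_left h3 (hq0.trans hqq).le
  have h10 : 1 ≤ q' * (1 / 2 ^ (s + 3)) + q' * (1 / 2 ^ (s + 2)) := by linarith
  have h11 : q' * (1 / 2 ^ (s + 3)) + q' * (1 / 2 ^ (s + 2)) = q' * 3 / (4 * 2 ^ (s + 1)) := by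
    rw [pow_succ (2 : ℝ) (s + 2), pow_succ (2 : ℝ) (s + 1)]; field_simp; ring
  rw [h11, le_div_iff₀ (by positivity)] at h10
  linarith

end Q187.Div
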