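import Pool.Agent.Q187.Div.Dioph

/-!
# Pointwise estimates for the divisor-weighted exponential sums
-/

open Finset

namespace Q187.Div

variable {n s : ℕ}

lemma sqrt_bounds (h1 : 4 ^ s ≤ n) (h2 : n < 4 ^ (s + 1)) :
    2 ^ s ≤ Nat.sqrt n ∧ Nat.sqrt n < 2 ^ (s + 1) := by
  constructor
  · rw [Nat.le_sqrt, ← mul_pow]; exact h1
  · rw [Nat.sqrt_lt, ← mul_pow]; exact h2

lemma theta_eq (θ : ℝ) (s : ℕ) : θ = (ps θ s + et θ s) / qs θ s := by
  have : (qs θ s : ℝ) ≠ 0 := by exact_mod_cast (qs_pos θ s).ne'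
  unfold et
  field_simp
  ring

/-- the part of the sum coming from the multiples of `q` -/
noncomputable def P (n : ℕ) (θ : ℝ) (s : ℕ) : ℂ :=
  ∑ a ∈ Icc 1 (Nat.sqrt n / qs θ s),
    ∑ b ∈ Ioc (qs θ s * a) (n / (qs θ s * a)), e (((a * b : ℕ) : ℝ) * et θ s)

lemma inner_mult (θ : ℝ) (s n a : ℕ) :
    ∑ b ∈ Ioc (qs θ s * a) (n / (qs θ s * a)), e (((qs θ s * a * b : ℕ) : ℝ) * θ)
      = ∑ b ∈ Ioc (qs θ s * a) (n / (qs θ s * a)), e (((a * b : ℕ) : ℝ) * et θ s) := by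
  refine Finset.sum_congr rfl fun b _ => ?_
  have : ((qs θ s * a * b : ℕ) : ℝ) * θ
      = ((a * b : ℕ) : ℝ) * et θ s + ((a * b * ps θ s : ℤ) : ℝ) := by
    unfold et; push_cast; ring
  rw [this, e_add_int]

lemma inner_nonmult (θ : ℝ) (h1 : 4 ^ s ≤ n) (h2 : n < 4 ^ (s + 1)) (a : ℕ)
    (ha : a ≤ Nat.sqrt n) (hq : ¬ qs θ s ∣ a) :
    ‖∑ b ∈ Ioc a (n / a), e (((a * b : ℕ) : ℝ) * θ)‖
      ≤ 1 / dn ((a : ℝ) * ps θ s / qs θ s) := by
  have hA := (sqrt_bounds h1 h2).2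
  have hq0 := qs_pos θ s
  have hq0' : (0 : ℝ) < qs θ s := by exact_mod_cast hq0
  have hη := abs_et_le θ s
  have hd1 : 1 / (qs θ s : ℝ) ≤ dn ((a : ℝ) * ps θ s / qs θ s) := by
    set r := round ((a : ℝ) * ps θ s / qs θ s) with hr
    have h3 : (a : ℤ) * ps θ s - qs θ s * r ≠ 0 := by
      intro h0
      apply hq
      have h4 : (qs θ s : ℤ) ∣ (a : ℤ) * ps θ s := ⟨r, by linarith⟩
      have h5 : (qs θ s : ℤ) ∣ (a : ℤ) := (qs_coprime θ s).symm.dvd_of_dvd_mul_right h4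
      exact_mod_cast h5
    have h4 : (1 : ℝ) ≤ |((a : ℤ) * ps θ s - qs θ s * r : ℤ)| := by
      have := Int.one_le_abs h3
      exact_mod_cast this
    have h5 : dn ((a : ℝ) * ps θ s / qs θ s)
        = |(((a : ℤ) * ps θ s - qs θ s * r : ℤ) : ℝ)| / qs θ s := by
      unfold dn
      rw [← hr, ← abs_of_pos hq0', ← abs_div, abs_of_pos hq0']
      congr 1
      push_cast
      field_simp
    rw [h5]
    exact div_le_div_of_nonneg_right (by exact_mod_cast h4) hq0'.le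
  have hd2 : dn ((a : ℝ) * ps θ s / qs θ s) / 2 ≤ dn (a * θ) := by
    have h3 := dn_sub_le ((a : ℝ) * ps θ s / qs θ s) (a * θ)
    have h4 : |(a : ℝ) * ps θ s / qs θ s - a * θ| ≤ 1 / (2 * qs θ s) := by
      have h5 : (a : ℝ) * ps θ s / qs θ s - a * θ = - (a * et θ s / qs θ s) := by
        have hqθ : (qs θ s : ℝ) * θ = ps θ s + et θ s := by unfold et; ring
        rw [div_sub' hq0'.ne', ← neg_div]
        congr 1
        linear_combination (-(a : ℝ)) * hqθ
      rw [h5, abs_neg, abs_div, abs_mul, abs_of_pos hq0', abs_of_nonneg (by positivity : (0 : ℝ) ≤ a)]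
      rw [div_le_div_iff₀ hq0' (by positivity)]
      have h6 : (a : ℝ) ≤ 2 ^ (s + 1) := by
        have : a ≤ 2 ^ (s + 1) := by omega
        exact_mod_cast this
      have h7 : (a : ℝ) * |et θ s| ≤ 2 ^ (s + 1) * (1 / 2 ^ (s + 2)) :=
        mul_le_mul h6 hη (abs_nonneg _) (by positivity)
      have h8 : (2 : ℝ) ^ (s + 1) * (1 / 2 ^ (s + 2)) = 1 / 2 := by
        rw [pow_succ (2 : ℝ) (s + 1)]; field_simp
      rw [h8] at h7
      nlinarith
    have h9 : 1 / (2 * (qs θ s : ℝ)) = 1 / (qs θ s : ℝ) / 2 := by rw [div_div, mul_comm]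
    rw [h9] at h4
    linarith
  have hpos : 0 < dn ((a : ℝ) * ps θ s / qs θ s) := lt_of_lt_of_le (by positivity) hd1
  have hpos2 : 0 < dn (a * θ) := by linarith
  have h3 := geom_bound (a * θ) hpos2 a (n / a)
  have h4 : ∀ b : ℕ, e (((a * b : ℕ) : ℝ) * θ) = e (b * (a * θ)) := by
    intro b; congr 1; push_cast; ring
  simp only [h4]
  refine h3.trans ?_
  apply one_div_le_one_div_of_le hpos
  linarith

lemma log_four_pow_le (h1 : 4 ^ s ≤ n) : 2 * s * Real.log 2 ≤ Real.log n := by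
  have h2 : ((4 : ℝ) ^ s) ≤ n := by exact_mod_cast h1
  have h3 := Real.log_le_log (by positivity) h2
  rw [Real.log_pow] at h3
  have h4 : Real.log 4 = 2 * Real.log 2 := by
    rw [show (4 : ℝ) = 2 ^ 2 by norm_num, Real.log_pow]; norm_num
  rw [h4] at h3
  linarith

lemma log_qs_le (θ : ℝ) (h1 : 4 ^ s ≤ n) :
    Real.log (qs θ s) ≤ 2 * Real.log 2 + Real.log n / 2 := by
  have h2 := log_four_pow_le h1
  have h3 : (qs θ s : ℝ) ≤ 2 ^ (s + 2) := by exact_mod_cast qs_le θ s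
  have h4 := Real.log_le_log (by exact_mod_cast qs_pos θ s) h3
  rw [Real.log_pow] at h4
  push_cast at h4
  linarith

lemma log_qs_nonneg (θ : ℝ) (s : ℕ) : 0 ≤ Real.log (qs θ s) :=
  Real.log_nonneg (by exact_mod_cast qs_pos θ s)

lemma log_nonneg' (h1 : 4 ^ s ≤ n) : 0 ≤ Real.log n := by
  apply Real.log_nonneg
  have : 1 ≤ n := le_trans (Nat.one_le_pow _ _ (by norm_num)) h1
  exact_mod_cast this

/-- only the multiples of `q` matter -/
lemma D_sub_P (θ : ℝ) (h1 : 4 ^ s ≤ n) (h2 : n < 4 ^ (s + 1)) :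
    ‖D n θ - 2 * P n θ s‖ ≤ 49 * Nat.sqrt n * (1 + Real.log n) := by
  set A := Nat.sqrt n with hA
  set q := qs θ s with hq
  have hq0 : 0 < q := qs_pos θ s
  have hAb := sqrt_bounds h1 h2
  rw [← hA] at hAb
  set I : ℕ → ℂ := fun a => ∑ b ∈ Ioc a (n / a), e (((a * b : ℕ) : ℝ) * θ) with hI
  have hsplit : ∑ a ∈ Icc 1 A, I a
      = ∑ a ∈ (Icc 1 A).filter (fun a => q ∣ a), I a
        + ∑ a ∈ (Icc 1 A).filter (fun a => ¬ q ∣ a), I a :=
    (Finset.sum_filter_add_sum_filter_not _ _ _).symm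
  have hmult : ∑ a ∈ (Icc 1 A).filter (fun a => q ∣ a), I a = P n θ s := by
    unfold P
    rw [← hA, ← hq]
    symm
    refine Finset.sum_nbij' (fun a => q * a) (fun a => a / q) ?_ ?_ ?_ ?_ ?_
    · intro a ha
      rw [Finset.mem_Icc] at ha
      rw [Finset.mem_filter, Finset.mem_Icc]
      refine ⟨⟨Nat.mul_pos hq0 ha.1, ?_⟩, Dvd.intro _ rfl⟩
      have := Nat.mul_le_mul_left q ha.2
      exact this.trans (Nat.mul_div_le A q)
    · intro a ha
      rw [Finset.mem_filter, Finset.mem_Icc] at ha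
      rw [Finset.mem_Icc]
      obtain ⟨⟨ha1, ha2⟩, c, rfl⟩ := ha
      rw [Nat.mul_div_cancel_left _ hq0]
      refine ⟨Nat.pos_of_ne_zero (fun h => by simp [h] at ha1), ?_⟩
      rw [Nat.le_div_iff_mul_le hq0, mul_comm]; exact ha2
    · intro a _
      exact Nat.mul_div_cancel_left _ hq0
    · intro a ha
      rw [Finset.mem_filter] at ha
      exact Nat.mul_div_cancel' ha.2
    · intro a _
      exact (inner_mult θ s n a).symm
  have hnon : ‖∑ a ∈ (Icc 1 A).filter (fun a => ¬ q ∣ a), I a‖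
      ≤ (A / q + 1 : ℕ) * (2 * q * (1 + Real.log q)) := by
    refine (norm_sum_le _ _).trans ?_
    refine le_trans ?_ (sum_inv_dn_A A q hq0 (ps θ s) (qs_coprime θ s))
    have h3 : ∑ a ∈ (Icc 1 A).filter (fun a => ¬ q ∣ a), ‖I a‖
        ≤ ∑ a ∈ (Icc 1 A).filter (fun a => ¬ q ∣ a), 1 / dn ((a : ℝ) * ps θ s / q) := by
      refine Finset.sum_le_sum fun a ha => ?_
      rw [Finset.mem_filter, Finset.mem_Icc] at ha
      exact inner_nonmult θ h1 h2 a ha.1.2 ha.2
    refine h3.trans ?_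
    refine Finset.sum_le_sum_of_subset_of_nonneg ?_ (fun _ _ _ => ?_)
    · intro a ha
      rw [Finset.mem_filter, Finset.mem_Icc] at ha
      exact Finset.mem_range.mpr (by omega)
    · exact one_div_nonneg.mpr (dn_nonneg _)
  have hdiag : ‖∑ a ∈ Icc 1 A, e (((a * a : ℕ) : ℝ) * θ)‖ ≤ A := by
    refine (norm_sum_le _ _).trans ?_
    simp only [norm_e]
    simp
  have hD : D n θ - 2 * P n θ s
      = 2 * ∑ a ∈ (Icc 1 A).filter (fun a => ¬ q ∣ a), I a
        + ∑ a ∈ Icc 1 A, e (((a * a : ℕ) : ℝ) * θ) := by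
    rw [D_eq, ← hA]
    have : ∑ a ∈ Icc 1 A, ∑ b ∈ Ioc a (n / a), e (((a * b : ℕ) : ℝ) * θ) = ∑ a ∈ Icc 1 A, I a := rfl
    rw [this, hsplit, hmult]
    ring
  rw [hD]
  refine (norm_add_le _ _).trans ?_
  rw [norm_mul, show ‖(2 : ℂ)‖ = 2 by simp]
  -- numerical part
  have hAR : (1 : ℝ) ≤ A := by
    have : 1 ≤ A := le_trans Nat.one_le_two_pow hAb.1
    exact_mod_cast this
  have hqA : (q : ℝ) ≤ 4 * A := by
    have h3 : q ≤ 4 * A := by
      have := qs_le θ s
      rw [pow_add] at this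
      omega
    exact_mod_cast h3
  have hq0' : (0 : ℝ) < q := by exact_mod_cast hq0
  have h4 : ((A / q + 1 : ℕ) : ℝ) * q ≤ 5 * A := by
    have h5 : (A / q + 1) * q ≤ A + q := by
      have := Nat.div_mul_le_self A q
      rw [Nat.add_mul]; omega
    have h6 : ((A / q + 1 : ℕ) : ℝ) * q ≤ A + q := by exact_mod_cast h5
    linarith
  have hlq := log_qs_le θ h1
  rw [← hq] at hlq
  have hlq0 : 0 ≤ Real.log q := log_qs_nonneg θ s
  have hln := log_nonneg' h1
  have hlog2 := Real.log_two_lt_d9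
  have h7 : 1 + Real.log q ≤ 2.4 * (1 + Real.log n) := by linarith
  have h8 : ((A / q + 1 : ℕ) : ℝ) * (2 * q * (1 + Real.log q)) ≤ 24 * A * (1 + Real.log n) := by
    have h9 : ((A / q + 1 : ℕ) : ℝ) * (2 * q * (1 + Real.log q))
        = 2 * (((A / q + 1 : ℕ) : ℝ) * q) * (1 + Real.log q) := by ring
    rw [h9]
    have h10 : 2 * (((A / q + 1 : ℕ) : ℝ) * q) * (1 + Real.log q)
        ≤ 2 * (5 * A) * (2.4 * (1 + Real.log n)) :=
      mul_le_mul (by linarith) h7 (by linarith) (by positivity)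
    linarith
  have h11 : (A : ℝ) ≤ A * (1 + Real.log n) := by nlinarith
  linarith

/-! ### Euler's constant -/

/-- `2γ - 1` -/
noncomputable def c0 : ℝ := 2 * Real.eulerMascheroniConstant - 1

lemma c0_pos : 0 < c0 := by
  unfold c0; linarith [Real.one_half_lt_eulerMascheroniConstant]

lemma c0_lt : c0 < 1 := by
  unfold c0; linarith [Real.eulerMascheroniConstant_lt_two_thirds]

lemma euler_lemma (x : ℝ) (m : ℕ) (hm : 1 ≤ m) (h1 : (m : ℝ) ^ 2 ≤ x) (h2 : x < (m + 1 : ℝ) ^ 2) :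
    |2 * H m - m * (m + 1) / x - Real.log x - c0| ≤ 3 / m := by
  have hm0 : (0 : ℝ) < m := by exact_mod_cast hm
  have hm1 : (1 : ℝ) ≤ m := by exact_mod_cast hm
  have hx : 0 < x := lt_of_lt_of_le (by positivity) h1
  have hlo : Real.log m + Real.eulerMascheroniConstant < H m := by
    have := Real.eulerMascheroniConstant_lt_eulerMascheroniSeq' m
    unfold Real.eulerMascheroniSeq' at this
    rw [if_neg (by omega)] at this
    rw [H_eq]; linarith
  have hhi : H m < Real.log (m + 1) + Real.eulerMascheroniConstant := by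
    have := Real.eulerMascheroniSeq_lt_eulerMascheroniConstant m
    unfold Real.eulerMascheroniSeq at this
    rw [H_eq]; linarith
  have hlog1 : Real.log (m + 1) ≤ Real.log m + 1 / m := by
    have h3 : Real.log (m + 1) = Real.log m + Real.log (1 + 1 / m) := by
      rw [← Real.log_mul hm0.ne' (by positivity)]
      congr 1; field_simp
    have h4 := Real.log_le_sub_one_of_pos (by positivity : (0 : ℝ) < 1 + 1 / m)
    linarith
  have hx1 : 2 * Real.log m ≤ Real.log x := by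
    have := Real.log_le_log (by positivity) h1
    rw [Real.log_pow] at this
    exact_mod_cast this
  have hx2 : Real.log x ≤ 2 * Real.log (m + 1) := by
    have := Real.log_le_log hx h2.le
    rw [Real.log_pow] at this
    exact_mod_cast this
  have hr1 : (m : ℝ) * (m + 1) / x ≤ 1 + 1 / m := by
    rw [div_le_iff₀ hx]
    have : (1 + 1 / (m : ℝ)) * x ≥ (1 + 1 / m) * m ^ 2 :=
      mul_le_mul_of_nonneg_left h1 (by positivity)
    have h3 : (1 + 1 / (m : ℝ)) * m ^ 2 = m * (m + 1) := by field_simp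
    linarith
  have hr2 : 1 - 1 / (m : ℝ) ≤ (m : ℝ) * (m + 1) / x := by
    rw [le_div_iff₀ hx]
    have h3 : 1 - 1 / (m : ℝ) ≤ m / (m + 1) := by
      rw [le_div_iff₀ (by positivity)]
      have : (1 - 1 / (m : ℝ)) * (m + 1) = m - 1 / m := by field_simp; ring
      rw [this]
      have : 0 ≤ 1 / (m : ℝ) := by positivity
      linarith
    have h4 : (m : ℝ) / (m + 1) * x ≤ m / (m + 1) * (m + 1) ^ 2 :=
      mul_le_mul_of_nonneg_left h2.le (by positivity)
    have h5 : (m : ℝ) / (m + 1) * (m + 1) ^ 2 = m * (m + 1) := by field_simp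
    have h6 : (1 - 1 / (m : ℝ)) * x ≤ m / (m + 1) * x := mul_le_mul_of_nonneg_right h3 hx.le
    linarith
  have h3m : 3 / (m : ℝ) = 3 * (1 / m) := by ring
  rw [h3m, abs_le]
  unfold c0
  constructor <;> linarith

end Q187.Div
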