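import Pool.Agent.Q187.Div.Est

/-!
# Main-term asymptotics
-/

open Finset

namespace Q187.Div

variable {n s : ℕ}

lemma H_nonneg (m : ℕ) : 0 ≤ H m := Finset.sum_nonneg fun _ _ => by positivity

lemma sum_Icc_id (m : ℕ) : ∑ a ∈ Icc 1 m, (a : ℝ) = m * (m + 1) / 2 := by
  induction m with
  | zero => simp
  | succ m ih =>
    rw [Finset.sum_Icc_succ_top (by omega), ih]
    push_cast; ring

/-- one inner sum -/
lemma inner_typeI (θ : ℝ) (s n a : ℕ) (ha : 1 ≤ a) (haA : qs θ s * a ≤ Nat.sqrt n) :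
    ‖∑ b ∈ Ioc (qs θ s * a) (n / (qs θ s * a)), e (((a * b : ℕ) : ℝ) * et θ s)
        - (((n : ℝ) / (qs θ s * a) - qs θ s * a : ℝ) : ℂ)‖
      ≤ 2 * Real.pi * |et θ s| * ((n : ℝ) ^ 2 / (qs θ s) ^ 2) * (1 / a) + 1 := by
  set q := qs θ s with hq
  have hq0 : 0 < q := qs_pos θ s
  have hqR : (0 : ℝ) < q := by exact_mod_cast hq0
  have haR : (0 : ℝ) < a := by exact_mod_cast ha
  have hqa : 0 < q * a := Nat.mul_pos hq0 ha
  set u := q * a with hu
  have hle : u ≤ n / u := by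
    rw [Nat.le_div_iff_mul_le hqa]
    exact Nat.le_sqrt.mp haA
  set v := n / u with hv
  have hvR : (v : ℝ) ≤ n / (q * a) := by
    have := @Nat.cast_div_le ℝ _ _ _ n u
    rw [hv]; refine this.trans (le_of_eq ?_)
    rw [hu]; push_cast; ring
  have hvR2 : (n : ℝ) / (q * a) < v + 1 := by
    have h3 : n < (v + 1) * u := by
      rw [Nat.add_mul, one_mul]; exact Nat.lt_div_mul_add hqa
    rw [div_lt_iff₀ (by positivity)]
    have h4 : (n : ℝ) < (v + 1) * (q * a) := by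
      have : (n : ℝ) < (((v + 1) * u : ℕ) : ℝ) := by exact_mod_cast h3
      rw [hu] at this; push_cast at this; exact this
    exact h4
  have h1 : ∑ b ∈ Ioc u v, e (((a * b : ℕ) : ℝ) * et θ s)
      = ∑ b ∈ Ioc u v, (e (((a * b : ℕ) : ℝ) * et θ s) - 1) + (((v : ℝ) - u : ℝ) : ℂ) := by
    rw [Finset.sum_sub_distrib]
    simp only [Finset.sum_const, Nat.card_Ioc, nsmul_eq_mul, mul_one]
    rw [Nat.cast_sub hle]
    push_cast; ring
  rw [h1]
  have h2 : ∑ b ∈ Ioc u v, (e (((a * b : ℕ) : ℝ) * et θ s) - 1) + (((v : ℝ) - u : ℝ) : ℂ)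
      - (((n : ℝ) / (q * a) - q * a : ℝ) : ℂ)
      = ∑ b ∈ Ioc u v, (e (((a * b : ℕ) : ℝ) * et θ s) - 1)
        + (((v : ℝ) - n / (q * a) : ℝ) : ℂ) := by
    rw [hu]; push_cast; ring
  rw [h2]
  refine (norm_add_le _ _).trans ?_
  refine add_le_add ?_ ?_
  · refine (norm_sum_le _ _).trans ?_
    have h3 : ∀ b ∈ Ioc u v, ‖e (((a * b : ℕ) : ℝ) * et θ s) - 1‖
        ≤ 2 * Real.pi * |et θ s| * (a * (n / (q * a))) := by
      intro b hb
      rw [Finset.mem_Ioc] at hb
      refine (norm_e_sub_one_le _).trans ?_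
      rw [abs_mul, abs_of_nonneg (by positivity : (0 : ℝ) ≤ ((a * b : ℕ) : ℝ))]
      have hb2 : (b : ℝ) ≤ n / (q * a) := le_trans (by exact_mod_cast hb.2) hvR
      have h5 : ((a * b : ℕ) : ℝ) ≤ a * (n / (q * a)) := by
        push_cast; exact mul_le_mul_of_nonneg_left hb2 haR.le
      have h6 : 2 * Real.pi * (((a * b : ℕ) : ℝ) * |et θ s|)
          ≤ 2 * Real.pi * ((a * (n / (q * a))) * |et θ s|) := by
        have := Real.pi_pos
        gcongr
      linarith
    refine (Finset.sum_le_sum h3).trans ?_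
    rw [Finset.sum_const, Nat.card_Ioc, nsmul_eq_mul]
    have h7 : ((v - u : ℕ) : ℝ) ≤ n / (q * a) := by
      refine le_trans ?_ hvR
      exact_mod_cast Nat.sub_le v u
    have h8 : 0 ≤ 2 * Real.pi * |et θ s| * (a * (n / (q * a))) := by
      have := Real.pi_pos; positivity
    refine (mul_le_mul_of_nonneg_right h7 h8).trans (le_of_eq ?_)
    field_simp
  · rw [Complex.norm_real, Real.norm_eq_abs, abs_le]
    constructor <;> linarith

lemma main_term {A q n s : ℕ} (hA1 : 1 ≤ A) (hnA' : A * A ≤ n) (hnA : n < (A + 1) * (A + 1))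
    (hq0 : 0 < q) (hqle : q ≤ 2 ^ (s + 2)) (h1 : 4 ^ s ≤ n) :
    |2 * ((n : ℝ) / q * H (A / q) - q * ((A / q : ℕ) * ((A / q : ℕ) + 1) / 2))
      - (n : ℝ) / q * (Real.log n - 2 * Real.log q + c0)| ≤ 24 * A := by
  set m := A / q with hm
  have hqR : (0 : ℝ) < q := by exact_mod_cast hq0
  have hn0 : 0 < n := lt_of_lt_of_le (by positivity) h1
  have hnR : (1 : ℝ) ≤ n := by exact_mod_cast hn0
  have hAR : (1 : ℝ) ≤ A := by exact_mod_cast hA1
  have hnAR : (n : ℝ) < (A + 1) * (A + 1) := by exact_mod_cast hnA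
  have hc0 := c0_pos
  have hc1 := c0_lt
  have hlogx : Real.log ((n : ℝ) / q ^ 2) = Real.log n - 2 * Real.log q := by
    rw [Real.log_div (by positivity) (by positivity), Real.log_pow]; push_cast; ring
  rcases Nat.eq_zero_or_pos m with h0 | h0
  · rw [h0]
    have hH0 : H 0 = 0 := by unfold H; simp
    rw [hH0]
    have hAq : A < q := by
      by_contra hc
      rw [not_lt] at hc
      have := Nat.div_pos hc hq0
      omega
    have hAqR : (A : ℝ) + 1 ≤ q := by exact_mod_cast hAq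
    have hnq : (n : ℝ) / q ≤ A + 1 := by
      rw [div_le_iff₀ hqR]
      nlinarith
    have hn1 : (n : ℝ) / q ^ 2 ≤ 1 := by
      rw [div_le_one (by positivity)]
      nlinarith
    have hn2 : (1 : ℝ) / 16 ≤ (n : ℝ) / q ^ 2 := by
      rw [div_le_div_iff₀ (by norm_num) (by positivity)]
      have h5 : (q : ℝ) ≤ 2 ^ (s + 2) := by exact_mod_cast hqle
      have h6 : ((4 : ℝ) ^ s) ≤ n := by exact_mod_cast h1
      have h7 : (q : ℝ) ^ 2 ≤ (2 ^ (s + 2)) ^ 2 := pow_le_pow_left₀ hqR.le h5 2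
      have h8 : ((2 : ℝ) ^ (s + 2)) ^ 2 = 16 * 4 ^ s := by
        rw [← pow_mul, show (4 : ℝ) = 2 ^ 2 by norm_num, ← pow_mul,
          show (s + 2) * 2 = 2 * s + 4 by ring, pow_add]; ring
      linarith
    have hl1 : Real.log ((n : ℝ) / q ^ 2) ≤ 0 := Real.log_nonpos (by positivity) hn1
    have hl2 : -2.8 ≤ Real.log ((n : ℝ) / q ^ 2) := by
      have h5 := Real.log_le_log (by norm_num) hn2
      have h6 : Real.log (1 / 16) = - (4 * Real.log 2) := by
        rw [one_div, Real.log_inv, show (16 : ℝ) = 2 ^ 4 by norm_num, Real.log_pow]; norm_num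
      have h7 := Real.log_two_lt_d9
      linarith
    rw [hlogx] at hl1 hl2
    have h8 : |Real.log n - 2 * Real.log q + c0| ≤ 3 := by
      rw [abs_le]; constructor <;> linarith
    have h9 : 2 * ((n : ℝ) / q * 0 - q * ((0 : ℕ) * ((0 : ℕ) + 1) / 2))
        - (n : ℝ) / q * (Real.log n - 2 * Real.log q + c0)
        = - ((n : ℝ) / q * (Real.log n - 2 * Real.log q + c0)) := by
      push_cast; ring
    rw [h9, abs_neg, abs_mul, abs_of_nonneg (by positivity : (0 : ℝ) ≤ (n : ℝ) / q)]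
    have h10 : (n : ℝ) / q * |Real.log n - 2 * Real.log q + c0| ≤ (A + 1) * 3 :=
      mul_le_mul hnq h8 (abs_nonneg _) (by positivity)
    linarith
  · have hmR : (1 : ℝ) ≤ m := by exact_mod_cast h0
    have hmq : m * q ≤ A := Nat.div_mul_le_self A q
    have hmqR : (m : ℝ) * q ≤ A := by exact_mod_cast hmq
    have hmq2 : A + 1 ≤ (m + 1) * q := by
      rw [Nat.add_mul, one_mul]; exact Nat.lt_div_mul_add hq0
    have hmq2R : (A : ℝ) + 1 ≤ (m + 1) * q := by exact_mod_cast hmq2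
    have hx1 : (m : ℝ) ^ 2 ≤ (n : ℝ) / q ^ 2 := by
      rw [le_div_iff₀ (by positivity)]
      have h5 : ((A : ℝ)) * A ≤ n := by exact_mod_cast hnA'
      have h6 : ((m : ℝ) * q) * (m * q) ≤ A * A := mul_le_mul hmqR hmqR (by positivity) (by positivity)
      nlinarith
    have hx2 : (n : ℝ) / q ^ 2 < (m + 1 : ℝ) ^ 2 := by
      rw [div_lt_iff₀ (by positivity)]
      have h6 : ((A : ℝ) + 1) * (A + 1) ≤ ((m + 1) * q) * ((m + 1) * q) :=
        mul_le_mul hmq2R hmq2R (by positivity) (by positivity)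
      nlinarith
    have h5 := euler_lemma ((n : ℝ) / q ^ 2) m h0 hx1 hx2
    rw [hlogx] at h5
    have h6 : 2 * ((n : ℝ) / q * H m - q * (m * (m + 1) / 2))
        - (n : ℝ) / q * (Real.log n - 2 * Real.log q + c0)
        = (n : ℝ) / q * (2 * H m - m * (m + 1) / ((n : ℝ) / q ^ 2)
          - (Real.log n - 2 * Real.log q) - c0) := by
      field_simp
      ring
    rw [h6, abs_mul, abs_of_nonneg (by positivity : (0 : ℝ) ≤ (n : ℝ) / q)]
    have h7 : (n : ℝ) / q * |2 * H m - m * (m + 1) / ((n : ℝ) / q ^ 2)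
          - (Real.log n - 2 * Real.log q) - c0| ≤ (n : ℝ) / q * (3 / m) :=
      mul_le_mul_of_nonneg_left h5 (by positivity)
    refine h7.trans ?_
    have h8 : (A : ℝ) ≤ 2 * m * q := by nlinarith
    rw [div_mul_div_comm, div_le_iff₀ (by positivity)]
    have h9 : (n : ℝ) ≤ 4 * A * A := by nlinarith
    calc (n : ℝ) * 3 ≤ 4 * A * A * 3 := by linarith
      _ ≤ 4 * A * (2 * m * q) * 3 := by gcongr
      _ = 24 * A * (q * m) := by ring

/-- the main term -/
lemma typeI (θ : ℝ) (h1 : 4 ^ s ≤ n) (h2 : n < 4 ^ (s + 1)) :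
    ‖2 * P n θ s - (((n : ℝ) / qs θ s * (Real.log n - 2 * Real.log (qs θ s) + c0) : ℝ) : ℂ)‖
      ≤ 26 * Nat.sqrt n * (1 + Real.log n)
        + 4 * Real.pi * |et θ s| * ((n : ℝ) ^ 2 / (qs θ s) ^ 2) * (1 + Real.log n) := by
  have hAb := sqrt_bounds h1 h2
  have hq0 : 0 < qs θ s := qs_pos θ s
  have hqle := qs_le θ s
  have hinner := inner_typeI θ s n
  have hP : P n θ s = ∑ a ∈ Icc 1 (Nat.sqrt n / qs θ s),
    ∑ b ∈ Ioc (qs θ s * a) (n / (qs θ s * a)), e (((a * b : ℕ) : ℝ) * et θ s) := rfl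
  rw [hP]
  set q := qs θ s with hq
  set A := Nat.sqrt n with hA
  set η := et θ s with hη
  set m := A / q with hm
  have hqR : (0 : ℝ) < q := by exact_mod_cast hq0
  have hn0 : 0 < n := lt_of_lt_of_le (by positivity) h1
  have hnR : (1 : ℝ) ≤ n := by exact_mod_cast hn0
  have hA1 : 1 ≤ A := le_trans Nat.one_le_two_pow hAb.1
  have hAR : (1 : ℝ) ≤ A := by exact_mod_cast hA1
  have hln := log_nonneg' h1
  have hnA : n < (A + 1) * (A + 1) := Nat.lt_succ_sqrt n
  have hnA' : A * A ≤ n := Nat.sqrt_le n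
  have hnAR : (n : ℝ) < (A + 1) * (A + 1) := by exact_mod_cast hnA
  have hmn : m ≤ n := by
    have h3 : m ≤ A := Nat.div_le_self A q
    nlinarith
  have hmA : (m : ℝ) ≤ A := by exact_mod_cast Nat.div_le_self A q
  have hHm : H m ≤ 1 + Real.log n := by
    rcases Nat.eq_zero_or_pos m with h0 | h0
    · rw [h0]; unfold H; simp; linarith
    · refine (H_le m).trans ?_
      have : Real.log m ≤ Real.log n :=
        Real.log_le_log (by exact_mod_cast h0) (by exact_mod_cast hmn)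
      linarith
  -- sum the inner estimates
  have hsum : ‖∑ a ∈ Icc 1 m, ∑ b ∈ Ioc (q * a) (n / (q * a)), e (((a * b : ℕ) : ℝ) * η)
      - (((n : ℝ) / q * H m - q * (m * (m + 1) / 2) : ℝ) : ℂ)‖
      ≤ 2 * Real.pi * |η| * ((n : ℝ) ^ 2 / q ^ 2) * H m + m := by
    have h3 : (((n : ℝ) / q * H m - q * (m * (m + 1) / 2) : ℝ) : ℂ)
        = ∑ a ∈ Icc 1 m, (((n : ℝ) / (q * a) - q * a : ℝ) : ℂ) := by
      rw [← Complex.ofReal_sum]
      congr 1
      rw [Finset.sum_sub_distrib, ← Finset.mul_sum, sum_Icc_id]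
      congr 1
      unfold H
      rw [Finset.mul_sum]
      refine Finset.sum_congr rfl fun a _ => ?_
      rw [mul_one_div, div_div]
    rw [h3, ← Finset.sum_sub_distrib]
    refine (norm_sum_le _ _).trans ?_
    have h4 : ∑ a ∈ Icc 1 m, ‖∑ b ∈ Ioc (q * a) (n / (q * a)), e (((a * b : ℕ) : ℝ) * η)
        - (((n : ℝ) / (q * a) - q * a : ℝ) : ℂ)‖
        ≤ ∑ a ∈ Icc 1 m, (2 * Real.pi * |η| * ((n : ℝ) ^ 2 / q ^ 2) * (1 / a) + 1) := by
      refine Finset.sum_le_sum fun a ha => ?_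
      rw [Finset.mem_Icc] at ha
      refine hinner a ha.1 ?_
      have := Nat.mul_le_mul_left q ha.2
      exact this.trans (Nat.mul_div_le A q)
    refine h4.trans (le_of_eq ?_)
    rw [Finset.sum_add_distrib, ← Finset.mul_sum]
    unfold H
    simp
  -- the main term
  have hmain : |2 * ((n : ℝ) / q * H m - q * (m * (m + 1) / 2))
      - (n : ℝ) / q * (Real.log n - 2 * Real.log q + c0)| ≤ 24 * A := by
    exact main_term hA1 hnA' hnA hq0 hqle h1
  -- conclusion
  set S := ∑ a ∈ Icc 1 m, ∑ b ∈ Ioc (q * a) (n / (q * a)), e (((a * b : ℕ) : ℝ) * η) with hS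
  set R : ℝ := (n : ℝ) / q * H m - q * (m * (m + 1) / 2) with hR
  set M : ℝ := (n : ℝ) / q * (Real.log n - 2 * Real.log q + c0) with hM
  have h3 : 2 * S - (M : ℂ) = 2 * (S - (R : ℂ)) + ((2 * R - M : ℝ) : ℂ) := by
    push_cast; ring
  rw [h3]
  refine (norm_add_le _ _).trans ?_
  rw [norm_mul, show ‖(2 : ℂ)‖ = 2 by simp, Complex.norm_real, Real.norm_eq_abs]
  have h4 : 2 * Real.pi * |η| * ((n : ℝ) ^ 2 / q ^ 2) * H m
      ≤ 2 * Real.pi * |η| * ((n : ℝ) ^ 2 / q ^ 2) * (1 + Real.log n) := by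
    apply mul_le_mul_of_nonneg_left hHm
    have := Real.pi_pos; positivity
  have h5 : (A : ℝ) ≤ A * (1 + Real.log n) := by nlinarith
  linarith

lemma dn_small (y : ℝ) (hy : |y| ≤ 1 / 2) : |y| ≤ dn y := by
  unfold dn
  rcases eq_or_ne (round y) 0 with h | h
  · rw [h]; simp
  · have h1 : (1 : ℝ) ≤ |(round y : ℝ)| := by
      have := Int.one_le_abs h
      exact_mod_cast this
    have h2 : |(round y : ℝ)| ≤ |y - round y| + |y| := by
      have : (round y : ℝ) = y - (y - round y) := by ring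
      calc |(round y : ℝ)| = |y - (y - round y)| := by rw [← this]
        _ ≤ |y| + |y - round y| := abs_sub _ _
        _ = _ := by ring
    linarith

lemma typeII (θ : ℝ) (h1 : 4 ^ s ≤ n) (h2 : n < 4 ^ (s + 1)) (hη : et θ s ≠ 0) :
    ‖2 * P n θ s‖ ≤ (1 + Real.log n) / |et θ s| := by
  have hAb := sqrt_bounds h1 h2
  have hq0 : 0 < qs θ s := qs_pos θ s
  have hηle := abs_et_le θ s
  unfold P
  set q := qs θ s with hq
  set A := Nat.sqrt n with hA
  set η := et θ s with hη'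
  set m := A / q with hm
  have hln := log_nonneg' h1
  have hηpos : 0 < |η| := abs_pos.mpr hη
  have hnA' : A * A ≤ n := Nat.sqrt_le n
  have hA1 : 1 ≤ A := le_trans Nat.one_le_two_pow hAb.1
  have hmn : m ≤ n := by
    have h3 : m ≤ A := Nat.div_le_self A q
    nlinarith
  have hHm : H m ≤ 1 + Real.log n := by
    rcases Nat.eq_zero_or_pos m with h0 | h0
    · rw [h0]; unfold H; simp; linarith
    · refine (H_le m).trans ?_
      have : Real.log m ≤ Real.log n :=
        Real.log_le_log (by exact_mod_cast h0) (by exact_mod_cast hmn)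
      linarith
  have h3 : ∀ a ∈ Icc 1 m, ‖∑ b ∈ Ioc (q * a) (n / (q * a)), e (((a * b : ℕ) : ℝ) * η)‖
      ≤ 1 / (2 * |η|) * (1 / a) := by
    intro a ha
    rw [Finset.mem_Icc] at ha
    have haR : (0 : ℝ) < a := by exact_mod_cast ha.1
    have h4 : ∀ b : ℕ, e (((a * b : ℕ) : ℝ) * η) = e (b * (a * η)) := by
      intro b; congr 1; push_cast; ring
    simp only [h4]
    have h5 : |(a : ℝ) * η| ≤ 1 / 2 := by
      rw [abs_mul, abs_of_pos haR]
      have h6 : (a : ℝ) ≤ 2 ^ (s + 1) := by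
        have h7 : m ≤ A := Nat.div_le_self A q
        have : a ≤ 2 ^ (s + 1) := by omega
        exact_mod_cast this
      have h7 : (a : ℝ) * |η| ≤ 2 ^ (s + 1) * (1 / 2 ^ (s + 2)) :=
        mul_le_mul h6 hηle (abs_nonneg _) (by positivity)
      have h8 : (2 : ℝ) ^ (s + 1) * (1 / 2 ^ (s + 2)) = 1 / 2 := by
        rw [pow_succ (2 : ℝ) (s + 1)]; field_simp
      linarith
    have h6 := dn_small _ h5
    rw [abs_mul, abs_of_pos haR] at h6
    have h7 : 0 < dn (a * η) := lt_of_lt_of_le (by positivity) h6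
    refine (geom_bound _ h7 _ _).trans ?_
    rw [div_mul_div_comm, one_mul]
    apply one_div_le_one_div_of_le (by positivity)
    linarith
  rw [norm_mul, show ‖(2 : ℂ)‖ = 2 by simp]
  have h4 := (norm_sum_le (Icc 1 m) (fun a => ∑ b ∈ Ioc (q * a) (n / (q * a)),
    e (((a * b : ℕ) : ℝ) * η))).trans (Finset.sum_le_sum h3)
  rw [← Finset.mul_sum] at h4
  have h5 : ∑ a ∈ Icc 1 m, (1 : ℝ) / a = H m := rfl
  rw [h5] at h4
  calc 2 * ‖∑ a ∈ Icc 1 m, ∑ b ∈ Ioc (q * a) (n / (q * a)), e (((a * b : ℕ) : ℝ) * η)‖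
      ≤ 2 * (1 / (2 * |η|) * H m) := by linarith
    _ = H m / |η| := by field_simp
    _ ≤ (1 + Real.log n) / |η| := div_le_div_of_nonneg_right hHm hηpos.le

end Q187.Div
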