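import Pool.Agent.Q187.Div.VEst

/-!
# Quadratic variation
-/

open Finset

namespace Q187.Div

variable (θ : ℝ)

/-! ### One-step variation of `V` inside a block -/

lemma norm_D_le (n : ℕ) (θ : ℝ) : ‖D n θ‖ ≤ W n := by
  unfold D W
  refine (norm_sum_le _ _).trans (le_of_eq ?_)
  refine Finset.sum_congr rfl fun k _ => ?_
  rw [norm_mul, norm_e, mul_one, Complex.norm_natCast]

lemma V_step (n : ℕ) (hn : 1 ≤ n) :
    ‖V (n + 1) θ - V n θ‖ ≤ 2 * (W (n + 1) - W n) / W (n + 1) := by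
  have hW : 0 < W n := lt_of_lt_of_le (by exact_mod_cast hn) (le_W n)
  have hW' : 0 < W (n + 1) := lt_of_lt_of_le hW (W_mono (Nat.le_succ n))
  have hd : 0 ≤ W (n + 1) - W n := by linarith [W_mono (Nat.le_succ n)]
  have hWc : (W n : ℂ) ≠ 0 := by exact_mod_cast hW.ne'
  have hWc' : (W (n + 1) : ℂ) ≠ 0 := by exact_mod_cast hW'.ne'
  have h1 : D (n + 1) θ = D n θ + ((Nat.divisors (n + 1)).card : ℂ) * e (((n + 1 : ℕ) : ℝ) * θ) := by
    unfold D; rw [Finset.sum_range_succ]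
  have h2 : W (n + 1) - W n = ((Nat.divisors (n + 1)).card : ℝ) := by rw [W_succ]; ring
  have h3 : V (n + 1) θ - V n θ
      = ((Nat.divisors (n + 1)).card : ℂ) * e (((n + 1 : ℕ) : ℝ) * θ) / (W (n + 1) : ℂ)
        - V n θ * (((W (n + 1) - W n) / W (n + 1) : ℝ) : ℂ) := by
    unfold V
    rw [h1]
    push_cast
    field_simp
    ring
  rw [h3]
  refine (norm_sub_le _ _).trans ?_
  rw [norm_div, norm_mul, norm_e, mul_one, Complex.norm_natCast, Complex.norm_real,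
    Real.norm_eq_abs, abs_of_pos hW', ← h2, norm_mul, Complex.norm_real, Real.norm_eq_abs,
    abs_of_nonneg (by positivity : 0 ≤ (W (n + 1) - W n) / W (n + 1))]
  have h4 : ‖V n θ‖ ≤ 1 := by
    unfold V
    rw [norm_div, Complex.norm_real, Real.norm_eq_abs, abs_of_pos hW, div_le_one hW]
    exact norm_D_le n θ
  have h5 : ‖V n θ‖ * ((W (n + 1) - W n) / W (n + 1)) ≤ 1 * ((W (n + 1) - W n) / W (n + 1)) :=
    mul_le_mul_of_nonneg_right h4 (by positivity)
  have h6 : 2 * (W (n + 1) - W n) / W (n + 1)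
      = (W (n + 1) - W n) / W (n + 1) + 1 * ((W (n + 1) - W n) / W (n + 1)) := by ring
  rw [h6]; linarith

/-- total variation of `V` inside a block -/
lemma V_TV (s : ℕ) : ∑ k ∈ Ico (4 ^ s) (4 ^ (s + 1) - 1), ‖V (k + 1) θ - V k θ‖ ≤ 60 := by
  have h4s : 1 ≤ 4 ^ s := Nat.one_le_pow _ _ (by norm_num)
  have hpow : 4 ^ (s + 1) = 4 * 4 ^ s := by rw [pow_succ]; ring
  have hW : 0 < W (4 ^ s) := lt_of_lt_of_le (by positivity) (le_W (4 ^ s))
  have h1 : ∀ k ∈ Ico (4 ^ s) (4 ^ (s + 1) - 1), ‖V (k + 1) θ - V k θ‖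
      ≤ 2 / W (4 ^ s) * (W (k + 1) - W k) := by
    intro k hk
    rw [Finset.mem_Ico] at hk
    refine (V_step θ k (by omega)).trans ?_
    have h2 : W (4 ^ s) ≤ W (k + 1) := W_mono (by omega)
    have h3 : 0 ≤ W (k + 1) - W k := by linarith [W_mono (Nat.le_succ k)]
    rw [div_mul_eq_mul_div]
    exact div_le_div_of_nonneg_left (by positivity) hW h2
  refine (Finset.sum_le_sum h1).trans ?_
  rw [← Finset.mul_sum, Finset.sum_Ico_sub (fun k => W k) (by omega)]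
  have h5 : W (4 ^ (s + 1) - 1) ≤ W (4 ^ (s + 1)) := W_mono (by omega)
  have h6 := W_le (4 ^ (s + 1))
  have h7 := le_W' (4 ^ s)
  have hl4 : Real.log 4 ≤ 1.4 := by
    rw [show (4 : ℝ) = 2 ^ 2 by norm_num, Real.log_pow]
    have := Real.log_two_lt_d9
    push_cast; linarith
  have hl40 : 0 ≤ Real.log 4 := Real.log_nonneg (by norm_num)
  rw [show (((4 ^ (s + 1) : ℕ)) : ℝ) = 4 * 4 ^ s by push_cast; rw [pow_succ]; ring] at h6
  rw [show (((4 ^ s : ℕ)) : ℝ) = 4 ^ s by push_cast; rfl] at h7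
  rw [Real.log_mul (by norm_num) (by positivity), Real.log_pow] at h6
  rw [Real.log_pow] at h7
  rw [div_mul_eq_mul_div, div_le_iff₀ hW]
  have h8 : 0 ≤ (s : ℝ) * Real.log 4 := by positivity
  have h9 : (0 : ℝ) < 4 ^ s := by positivity
  have h10 : (4 : ℝ) * 4 ^ s * (1 + (Real.log 4 + s * Real.log 4))
      ≤ 30 * (4 ^ s * (1 + s * Real.log 4) / 3) := by
    have : (1 + (Real.log 4 + s * Real.log 4)) ≤ 2.4 * (1 + s * Real.log 4) := by nlinarith
    have h11 : (4 : ℝ) * 4 ^ s * (1 + (Real.log 4 + s * Real.log 4))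
      ≤ 4 * 4 ^ s * (2.4 * (1 + s * Real.log 4)) := mul_le_mul_of_nonneg_left this (by positivity)
    nlinarith
  linarith

/-! ### Sum of reciprocals of distinct denominators -/

/-- sum of `1/q` over the distinct denominators up to scale `S` -/
noncomputable def R : ℕ → ℝ
  | 0 => 1 / qs θ 0
  | (S + 1) => R S + (if qs θ (S + 1) = qs θ S then (0 : ℝ) else 1 / (qs θ (S + 1) : ℝ))

lemma qs_posR (s : ℕ) : (0 : ℝ) < qs θ s := by exact_mod_cast qs_pos θ s

lemma one_le_qsR (s : ℕ) : (1 : ℝ) ≤ qs θ s := by exact_mod_cast qs_pos θ s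

lemma R_le' (S : ℕ) : R θ S ≤ 1 + 3 / 4 * (1 - 1 / 2 ^ S) := by
  induction S with
  | zero =>
    simp only [R]
    have := one_le_qsR θ 0
    have h : 1 / (qs θ 0 : ℝ) ≤ 1 := by rw [div_le_one (by linarith)]; exact this
    simpa using h
  | succ S ih =>
    simp only [R]
    have h1 : (if qs θ (S + 1) = qs θ S then (0 : ℝ) else 1 / qs θ (S + 1))
        ≤ 3 / 4 * (1 / 2 ^ (S + 1)) := by
      split_ifs with h
      · positivity
      · have h2 := qs_new θ S h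
        rw [div_mul_div_comm, div_le_div_iff₀ (qs_posR θ _) (by positivity)]
        linarith
    have h3 : (1 : ℝ) / 2 ^ S = 2 * (1 / 2 ^ (S + 1)) := by rw [pow_succ]; field_simp
    rw [h3] at ih
    linarith

lemma R_le (S : ℕ) : R θ S ≤ 7 / 4 := by
  have h := R_le' θ S
  have : (0 : ℝ) ≤ 1 / 2 ^ S := by positivity
  linarith

lemma et_congr {s t : ℕ} (h : qs θ s = qs θ t) : et θ s = et θ t := by
  unfold et ps; rw [h]

lemma xs_succ {s : ℕ} (h : qs θ (s + 1) = qs θ s) : xs θ (s + 1) = 4 * xs θ s := by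
  unfold xs; rw [et_congr θ h, h, pow_succ]; ring

/-- potential -/
noncomputable def psi (x : ℝ) : ℝ := if x ≤ 1 then x / 3 else 5 / 3 - 4 / (3 * x)

lemma psi_nonneg {x : ℝ} (hx : 0 ≤ x) : 0 ≤ psi x := by
  unfold psi
  split_ifs with h
  · positivity
  · rw [not_le] at h
    have : 4 / (3 * x) ≤ 4 / 3 := by
      rw [div_le_div_iff₀ (by positivity) (by norm_num)]; linarith
    linarith

lemma psi_le {x : ℝ} (_hx : 0 ≤ x) : psi x ≤ 5 / 3 := by
  unfold psi
  split_ifs with h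
  · linarith
  · rw [not_le] at h
    have : 0 ≤ 4 / (3 * x) := by positivity
    linarith

lemma psi_step {x : ℝ} (_hx : 0 ≤ x) : g x + psi x ≤ psi (4 * x) := by
  unfold g psi
  by_cases h1 : x ≤ 1
  · rw [if_pos h1, if_pos h1]
    by_cases h2 : 4 * x ≤ 1
    · rw [if_pos h2]; linarith
    · rw [if_neg h2]
      rw [not_le] at h2
      have hx0 : 0 < x := by linarith
      have h3 : 4 / (3 * (4 * x)) = 1 / (3 * x) := by field_simp
      rw [h3]
      have h4 : 1 / (3 * x) ≤ 5 / 3 - 4 * x / 3 := by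
        rw [div_le_iff₀ (by positivity)]
        nlinarith
      linarith
  · rw [if_neg h1, if_neg h1, if_neg (by linarith)]
    rw [not_le] at h1
    have hx0 : 0 < x := by linarith
    have h3 : 4 / (3 * (4 * x)) = 1 / (3 * x) := by field_simp
    have h4 : 4 / (3 * x) = 4 * (1 / (3 * x)) := by ring
    have h5 : 1 / x = 3 * (1 / (3 * x)) := by field_simp
    rw [h3, h4, h5]
    linarith

lemma G_le (S : ℕ) : ∑ s ∈ range S, g (xs θ s) / qs θ s
    ≤ 5 / 3 * (R θ S - 1 / qs θ S) + psi (xs θ S) / qs θ S := by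
  induction S with
  | zero =>
    simp only [range_zero, sum_empty, R]
    have := psi_nonneg (xs_nonneg θ 0)
    have := qs_posR θ 0
    rw [sub_self, mul_zero, zero_add]
    positivity
  | succ S ih =>
    rw [Finset.sum_range_succ]
    have hq := qs_posR θ S
    have hq' := qs_posR θ (S + 1)
    have hstep := psi_step (xs_nonneg θ S)
    by_cases h : qs θ (S + 1) = qs θ S
    · have hR : R θ (S + 1) = R θ S := by simp only [R]; rw [if_pos h, add_zero]
      rw [hR, h, xs_succ θ h]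
      have : g (xs θ S) / qs θ S + psi (xs θ S) / qs θ S ≤ psi (4 * xs θ S) / qs θ S := by
        rw [← add_div]; exact div_le_div_of_nonneg_right hstep hq.le
      linarith
    · have hR : R θ (S + 1) = R θ S + 1 / qs θ (S + 1) := by simp only [R]; rw [if_neg h]
      rw [hR]
      have h1 : g (xs θ S) / qs θ S + psi (xs θ S) / qs θ S ≤ 5 / 3 * (1 / qs θ S) := by
        rw [← add_div, mul_one_div]
        apply div_le_div_of_nonneg_right _ hq.le
        exact hstep.trans (psi_le (by have := xs_nonneg θ S; positivity))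
      have h2 : 0 ≤ psi (xs θ (S + 1)) / qs θ (S + 1) :=
        div_nonneg (psi_nonneg (xs_nonneg θ _)) hq'.le
      linarith

lemma G_le_three (S : ℕ) : ∑ s ∈ range S, g (xs θ s) / qs θ s ≤ 3 := by
  have h1 := G_le θ S
  have h2 := R_le θ S
  have h3 := psi_le (xs_nonneg θ S)
  have hq := qs_posR θ S
  have h4 : psi (xs θ S) / qs θ S ≤ 5 / 3 * (1 / qs θ S) := by
    rw [mul_one_div]; exact div_le_div_of_nonneg_right h3 hq.le
  linarith

lemma sum_f_le (S : ℕ) : ∑ s ∈ range S, f θ s ≤ 5 * K4 := by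
  unfold f
  rw [← Finset.mul_sum, Finset.sum_add_distrib]
  have h1 := G_le_three θ S
  have h2 : ∑ s ∈ range S, (1 : ℝ) / 2 ^ s ≤ 2 := by
    have : ∑ s ∈ range S, (1 : ℝ) / 2 ^ s = ∑ s ∈ range S, (1 / 2 : ℝ) ^ s := by
      refine Finset.sum_congr rfl fun s _ => ?_
      rw [one_div_pow]
    rw [this]
    exact sum_geometric_two_le S
  have := K4_pos
  nlinarith

lemma f_le (s : ℕ) : f θ s ≤ 2 * K4 := by
  unfold f
  have h1 : (1 : ℝ) / 2 ^ s ≤ 1 := by
    rw [div_le_one (by positivity)]; exact one_le_pow₀ (by norm_num)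
  have h2 : g (xs θ s) / qs θ s ≤ 1 := by
    rw [div_le_one (qs_posR θ s)]
    refine le_trans ?_ (one_le_qsR θ s)
    unfold g
    split_ifs with h
    · exact h
    · rw [not_le] at h
      rw [div_le_one (by linarith)]; exact h.le
  have := K4_pos
  nlinarith

lemma sum_f_sq_le (S : ℕ) : ∑ s ∈ range S, f θ s ^ 2 ≤ 10 * K4 ^ 2 := by
  have h1 : ∑ s ∈ range S, f θ s ^ 2 ≤ ∑ s ∈ range S, 2 * K4 * f θ s := by
    refine Finset.sum_le_sum fun s _ => ?_
    rw [sq]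
    exact mul_le_mul_of_nonneg_right (f_le θ s) (f_nonneg θ s)
  rw [← Finset.mul_sum] at h1
  have h2 := sum_f_le θ S
  have := K4_pos
  nlinarith

/-! ### Total variation of the comparison function -/

lemma log_eq {s k : ℕ} (h1 : 4 ^ s ≤ k) (h2 : k < 4 ^ (s + 1)) : Nat.log 4 k = s := by
  rw [Nat.log_eq_iff (Or.inr ⟨by norm_num, by
    have : 1 ≤ 4 ^ s := Nat.one_le_pow _ _ (by norm_num)
    omega⟩)]
  exact ⟨h1, h2⟩

lemma Mt_eq {s k : ℕ} (h1 : 4 ^ s ≤ k) (h2 : k < 4 ^ (s + 1)) :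
    Mt θ k = if xs θ s ≤ 1 then Mq (qs θ s) k else 0 := by
  unfold Mt; rw [log_eq h1 h2]

lemma Mt_mono {s j k : ℕ} (h1 : 4 ^ s ≤ j) (hjk : j ≤ k) (h2 : k < 4 ^ (s + 1)) :
    Mt θ j ≤ Mt θ k := by
  rw [Mt_eq θ h1 (by omega), Mt_eq θ (by omega) h2]
  split_ifs
  · exact Mq_mono _ (qs_pos θ s) (le_trans (Nat.one_le_pow _ _ (by norm_num)) h1) hjk
  · exact le_rfl

lemma Mt_TV_block (s : ℕ) : ∑ k ∈ Ico (4 ^ s) (4 ^ (s + 1) - 1), |Mt θ (k + 1) - Mt θ k|
    = Mt θ (4 ^ (s + 1) - 1) - Mt θ (4 ^ s) := by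
  have h4s : 1 ≤ 4 ^ s := Nat.one_le_pow _ _ (by norm_num)
  have hpow : 4 ^ (s + 1) = 4 * 4 ^ s := by rw [pow_succ]; ring
  have h1 : ∀ k ∈ Ico (4 ^ s) (4 ^ (s + 1) - 1), |Mt θ (k + 1) - Mt θ k|
      = Mt θ (k + 1) - Mt θ k := by
    intro k hk
    rw [Finset.mem_Ico] at hk
    apply abs_of_nonneg
    linarith [Mt_mono θ hk.1 (Nat.le_succ k) (by omega)]
  rw [Finset.sum_congr rfl h1, Finset.sum_Ico_sub (fun k => Mt θ k) (by omega)]

lemma split_blocks (a : ℕ → ℝ) (S : ℕ) :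
    ∑ k ∈ Ico 1 (4 ^ (S + 1)), a k = ∑ k ∈ Ico 1 (4 ^ S), a k
      + ∑ k ∈ Ico (4 ^ S) (4 ^ (S + 1) - 1), a k + a (4 ^ (S + 1) - 1) := by
  have h4s : 1 ≤ 4 ^ S := Nat.one_le_pow _ _ (by norm_num)
  have hpow : 4 ^ (S + 1) = 4 * 4 ^ S := by rw [pow_succ]; ring
  rw [← Finset.sum_Ico_consecutive a h4s (by omega : 4 ^ S ≤ 4 ^ (S + 1)), add_assoc]
  congr 1
  obtain ⟨m, hm⟩ : ∃ m, 4 ^ (S + 1) = m + 1 := ⟨4 ^ (S + 1) - 1, by omega⟩
  rw [hm, Nat.add_sub_cancel, Finset.sum_Ico_succ_top (by omega)]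

lemma Mt_TV (S : ℕ) : ∑ k ∈ Ico 1 (4 ^ S), |Mt θ (k + 1) - Mt θ k|
    ≤ Mt θ (4 ^ S) - Mt θ 1 + 2 * K2 * (3 * R θ S - 1 / qs θ S
        - (if xs θ S ≤ 1 then 1 / (qs θ S : ℝ) else 0)) := by
  induction S with
  | zero =>
    simp only [pow_zero, Ico_self, sum_empty, sub_self, zero_add, R]
    have hq := qs_posR θ 0
    have hK := K2_pos
    have h1 : 0 ≤ 3 * (1 / (qs θ 0 : ℝ)) - 1 / qs θ 0
        - (if xs θ 0 ≤ 1 then 1 / (qs θ 0 : ℝ) else 0) := by
      have : 0 ≤ 1 / (qs θ 0 : ℝ) := by positivity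
      split_ifs <;> linarith
    positivity
  | succ S ih =>
    have h4s : 1 ≤ 4 ^ S := Nat.one_le_pow _ _ (by norm_num)
    have hpow : 4 ^ (S + 1) = 4 * 4 ^ S := by rw [pow_succ]; ring
    have hpow2 : 4 ^ (S + 1 + 1) = 4 * 4 ^ (S + 1) := by rw [pow_succ]; ring
    rw [split_blocks, Mt_TV_block]
    have hK := K2_pos
    have hq := qs_posR θ S
    have hq' := qs_posR θ (S + 1)
    have hcast : 4 ^ (S + 1) - 1 + 1 = 4 ^ (S + 1) := by omega
    rw [hcast]
    have hlogA : Nat.log 4 (4 ^ (S + 1) - 1) = S := log_eq (by omega) (by omega)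
    have hlogB : Nat.log 4 (4 ^ (S + 1)) = S + 1 := log_eq le_rfl (by omega)
    have hbA := Mt_bound θ (n := 4 ^ (S + 1) - 1) (by omega)
    have hbB := Mt_bound θ (n := 4 ^ (S + 1)) (by omega)
    rw [hlogA] at hbA
    rw [hlogB] at hbB
    have hKq : K2 / qs θ S = K2 * (1 / qs θ S) := by ring
    have hKq' : K2 / qs θ (S + 1) = K2 * (1 / qs θ (S + 1)) := by ring
    have h1q : 0 ≤ 1 / (qs θ S : ℝ) := by positivity
    have h1q' : 0 ≤ 1 / (qs θ (S + 1) : ℝ) := by positivity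
    have hA' := abs_le.mp hbA
    have hB' := abs_le.mp hbB
    -- the crossing edge
    by_cases h : qs θ (S + 1) = qs θ S
    · have hR : R θ (S + 1) = R θ S := by simp only [R]; rw [if_pos h, add_zero]
      rw [hR, h]
      have hx := xs_succ θ h
      have hxn := xs_nonneg θ S
      by_cases hB : xs θ (S + 1) ≤ 1
      · -- monotone
        have hA : xs θ S ≤ 1 := by linarith
        rw [if_pos hB]
        rw [if_pos hA] at ih
        have h2 : Mt θ (4 ^ (S + 1) - 1) ≤ Mt θ (4 ^ (S + 1)) := by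
          rw [Mt_eq θ (s := S) (by omega) (by omega), Mt_eq θ (s := S + 1) le_rfl (by omega),
            if_pos hA, if_pos hB, h]
          exact Mq_mono _ (qs_pos θ S) (by omega) (by omega)
        rw [abs_of_nonneg (by linarith)]
        linarith
      · rw [if_neg hB]
        have hBz : Mt θ (4 ^ (S + 1)) = 0 := by
          rw [Mt_eq θ (s := S + 1) le_rfl (by omega), if_neg hB]
        by_cases hA : xs θ S ≤ 1
        · rw [if_pos hA] at ih
          rw [hBz, zero_sub, abs_neg]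
          have h3 : |Mt θ (4 ^ (S + 1) - 1)| + Mt θ (4 ^ (S + 1) - 1) ≤ 2 * (K2 * (1 / qs θ S)) := by
            rw [← hKq]; linarith [hA'.2, hbA]
          nlinarith
        · rw [if_neg hA] at ih
          have hAz : Mt θ (4 ^ (S + 1) - 1) = 0 := by
            rw [Mt_eq θ (s := S) (by omega) (by omega), if_neg hA]
          rw [hBz, hAz, sub_self, abs_zero]
          rw [hAz]  at *
          linarith
    · have hR : R θ (S + 1) = R θ S + 1 / qs θ (S + 1) := by simp only [R]; rw [if_neg h]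
      rw [hR]
      have h3 : |Mt θ (4 ^ (S + 1)) - Mt θ (4 ^ (S + 1) - 1)|
          ≤ Mt θ (4 ^ (S + 1)) - Mt θ (4 ^ (S + 1) - 1)
            + 2 * K2 * (1 / qs θ S + 1 / qs θ (S + 1)) := by
        rw [abs_le]
        constructor
        · have : 0 ≤ K2 * (1 / qs θ S) := by positivity
          have : 0 ≤ K2 * (1 / qs θ (S + 1)) := by positivity
          nlinarith
        · have : 0 ≤ K2 * (1 / qs θ S) := by positivity
          have : 0 ≤ K2 * (1 / qs θ (S + 1)) := by positivity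
          nlinarith
      have h4 : 0 ≤ (if xs θ S ≤ 1 then 1 / (qs θ S : ℝ) else 0) := by
        split_ifs
        · exact h1q
        · exact le_rfl
      have h5 : (if xs θ (S + 1) ≤ 1 then 1 / (qs θ (S + 1) : ℝ) else 0)
          ≤ 1 / (qs θ (S + 1) : ℝ) := by
        split_ifs
        · exact le_rfl
        · exact h1q'
      nlinarith

lemma Mt_TV_le (S : ℕ) : ∑ k ∈ Ico 1 (4 ^ S), |Mt θ (k + 1) - Mt θ k| ≤ 13 * K2 := by
  have h1 := Mt_TV θ S
  have h2 := R_le θ S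
  have hK := K2_pos
  have hq := one_le_qsR θ
  have hb : ∀ n : ℕ, 1 ≤ n → |Mt θ n| ≤ K2 := fun n hn =>
    (Mt_bound θ hn).trans (div_le_self hK.le (hq _))
  have h3 := abs_le.mp (hb (4 ^ S) (Nat.one_le_pow _ _ (by norm_num)))
  have h4 := abs_le.mp (hb 1 le_rfl)
  have h5 : 0 ≤ (if xs θ S ≤ 1 then 1 / (qs θ S : ℝ) else 0) := by
    split_ifs
    · have := qs_posR θ S; positivity
    · exact le_rfl
  have h6 : 0 ≤ 1 / (qs θ S : ℝ) := by have := qs_posR θ S; positivity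
  nlinarith

/-! ### Quadratic variation -/

/-- the remainder -/
noncomputable def F (n : ℕ) : ℂ := V n θ - (Mt θ n : ℂ)

/-- edge weights -/
noncomputable def rho (k : ℕ) : ℝ :=
  if Nat.log 4 (k + 1) = Nat.log 4 k then 2 * f θ (Nat.log 4 k) * ‖F θ (k + 1) - F θ k‖
  else 2 * f θ (Nat.log 4 k) ^ 2 + 2 * f θ (Nat.log 4 (k + 1)) ^ 2

lemma rho_nonneg (k : ℕ) : 0 ≤ rho θ k := by
  unfold rho
  have := f_nonneg θ (Nat.log 4 k)
  split_ifs <;> positivity

lemma norm_F_le {n : ℕ} (hn : 1 ≤ n) : ‖F θ n‖ ≤ f θ (Nat.log 4 n) := V_sub_Mt θ hn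

lemma norm_sub_le_sum {E : Type*} [SeminormedAddCommGroup E] (a : ℕ → E) {m n : ℕ} (h : m ≤ n) :
    ‖a n - a m‖ ≤ ∑ k ∈ Ico m n, ‖a (k + 1) - a k‖ := by
  have := norm_sum_le (Ico m n) (fun k => a (k + 1) - a k)
  rwa [Finset.sum_Ico_sub (fun k => a k) h] at this

lemma F_sq_le {m n : ℕ} (hm : 1 ≤ m) (h : m ≤ n) :
    ‖F θ n - F θ m‖ ^ 2 ≤ ∑ k ∈ Ico m n, rho θ k := by
  have hFm := norm_F_le θ hm
  have hFn := norm_F_le θ (hm.trans h)
  obtain ⟨hm1, hm2⟩ := log_bounds hm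
  obtain ⟨hn1, hn2⟩ := log_bounds (hm.trans h)
  have hle : Nat.log 4 m ≤ Nat.log 4 n := Nat.log_mono_right h
  set s := Nat.log 4 m with hs
  set t := Nat.log 4 n with ht
  have hfs := f_nonneg θ s
  have hft := f_nonneg θ t
  have htri : ‖F θ n - F θ m‖ ≤ ‖F θ n‖ + ‖F θ m‖ := norm_sub_le _ _
  rcases hle.eq_or_lt with he | hlt
  · have h1 := norm_sub_le_sum (F θ) h
    have h2 : ∑ k ∈ Ico m n, rho θ k = 2 * f θ s * ∑ k ∈ Ico m n, ‖F θ (k + 1) - F θ k‖ := by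
      rw [Finset.mul_sum]
      refine Finset.sum_congr rfl fun k hk => ?_
      rw [Finset.mem_Ico] at hk
      have h3 : Nat.log 4 k = s := log_eq (by omega) (by rw [he]; omega)
      have h4 : Nat.log 4 (k + 1) = s := log_eq (by omega) (by rw [he]; omega)
      unfold rho
      rw [h3, h4, if_pos rfl]
    rw [h2, sq]
    rw [← he] at hFn
    refine mul_le_mul ?_ h1 (norm_nonneg _) (by positivity)
    linarith
  · -- different blocks
    have hpow : 4 ^ (s + 1) ≤ 4 ^ t := Nat.pow_le_pow_right (by norm_num) hlt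
    have h4s : 1 ≤ 4 ^ s := Nat.one_le_pow _ _ (by norm_num)
    have hpows : 4 ^ (s + 1) = 4 * 4 ^ s := by rw [pow_succ]; ring
    have hpowt : 4 ^ (t + 1) = 4 * 4 ^ t := by rw [pow_succ]; ring
    have hsq : ‖F θ n - F θ m‖ ^ 2 ≤ 2 * f θ s ^ 2 + 2 * f θ t ^ 2 := by
      have h5 : ‖F θ n - F θ m‖ ^ 2 ≤ (f θ t + f θ s) ^ 2 :=
        pow_le_pow_left₀ (norm_nonneg _) (by linarith) 2
      nlinarith [sq_nonneg (f θ t - f θ s)]
    refine hsq.trans ?_
    have hk1 : 4 ^ (s + 1) - 1 ∈ Ico m n := by rw [Finset.mem_Ico]; omega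
    have hk2 : 4 ^ t - 1 ∈ Ico m n := by rw [Finset.mem_Ico]; omega
    have hl1 : Nat.log 4 (4 ^ (s + 1) - 1) = s := log_eq (by omega) (by omega)
    have hl2 : Nat.log 4 (4 ^ (s + 1) - 1 + 1) = s + 1 := by
      rw [show 4 ^ (s + 1) - 1 + 1 = 4 ^ (s + 1) by omega]
      exact log_eq le_rfl (by rw [pow_succ 4 (s + 1)]; omega)
    obtain ⟨t', ht'⟩ : ∃ t', t = t' + 1 := ⟨t - 1, by omega⟩
    have hpowt' : 4 ^ (t' + 1) = 4 * 4 ^ t' := by rw [pow_succ]; ring
    have h4t' : 1 ≤ 4 ^ t' := Nat.one_le_pow _ _ (by norm_num)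
    have hl3 : Nat.log 4 (4 ^ t - 1) = t' := by
      rw [ht']; exact log_eq (by omega) (by omega)
    have hl4 : Nat.log 4 (4 ^ t - 1 + 1) = t := by
      rw [show 4 ^ t - 1 + 1 = 4 ^ t by omega]
      exact log_eq le_rfl (by omega)
    have hr1 : rho θ (4 ^ (s + 1) - 1) = 2 * f θ s ^ 2 + 2 * f θ (s + 1) ^ 2 := by
      unfold rho; rw [hl1, hl2, if_neg (by omega)]
    have hr2 : rho θ (4 ^ t - 1) = 2 * f θ t' ^ 2 + 2 * f θ t ^ 2 := by
      unfold rho; rw [hl3, hl4, if_neg (by omega)]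
    by_cases hst : s + 1 = t
    · have h6 : rho θ (4 ^ (s + 1) - 1) ≤ ∑ k ∈ Ico m n, rho θ k :=
        Finset.single_le_sum (fun k _ => rho_nonneg θ k) hk1
      rw [hr1, hst] at h6
      exact h6
    · have hne : 4 ^ (s + 1) - 1 ≠ 4 ^ t - 1 := by
        have : 4 ^ (s + 1) < 4 ^ t := Nat.pow_lt_pow_right (by norm_num) (by omega)
        omega
      have h6 : ∑ k ∈ ({4 ^ (s + 1) - 1, 4 ^ t - 1} : Finset ℕ), rho θ k
          ≤ ∑ k ∈ Ico m n, rho θ k := by
        refine Finset.sum_le_sum_of_subset_of_nonneg ?_ (fun k _ _ => rho_nonneg θ k)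
        intro k hk
        rw [Finset.mem_insert, Finset.mem_singleton] at hk
        rcases hk with rfl | rfl
        · exact hk1
        · exact hk2
      rw [Finset.sum_pair hne, hr1, hr2] at h6
      nlinarith [sq_nonneg (f θ (s + 1)), sq_nonneg (f θ t')]

lemma rho_block (s : ℕ) : ∑ k ∈ Ico (4 ^ s) (4 ^ (s + 1) - 1), rho θ k
    + rho θ (4 ^ (s + 1) - 1)
    ≤ 2 * (60 + 2 * K2) * f θ s + 2 * f θ s ^ 2 + 2 * f θ (s + 1) ^ 2 := by
  have h4s : 1 ≤ 4 ^ s := Nat.one_le_pow _ _ (by norm_num)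
  have hpows : 4 ^ (s + 1) = 4 * 4 ^ s := by rw [pow_succ]; ring
  have hl1 : Nat.log 4 (4 ^ (s + 1) - 1) = s := log_eq (by omega) (by omega)
  have hl2 : Nat.log 4 (4 ^ (s + 1) - 1 + 1) = s + 1 := by
    rw [show 4 ^ (s + 1) - 1 + 1 = 4 ^ (s + 1) by omega]
    exact log_eq le_rfl (by rw [pow_succ 4 (s + 1)]; omega)
  have hr1 : rho θ (4 ^ (s + 1) - 1) = 2 * f θ s ^ 2 + 2 * f θ (s + 1) ^ 2 := by
    unfold rho; rw [hl1, hl2, if_neg (by omega)]
  have h1 : ∀ k ∈ Ico (4 ^ s) (4 ^ (s + 1) - 1), rho θ k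
      ≤ 2 * f θ s * (‖V (k + 1) θ - V k θ‖ + |Mt θ (k + 1) - Mt θ k|) := by
    intro k hk
    rw [Finset.mem_Ico] at hk
    have h3 : Nat.log 4 k = s := log_eq (by omega) (by omega)
    have h4 : Nat.log 4 (k + 1) = s := log_eq (by omega) (by omega)
    unfold rho
    rw [h3, h4, if_pos rfl]
    apply mul_le_mul_of_nonneg_left _ (by have := f_nonneg θ s; positivity)
    have h5 : F θ (k + 1) - F θ k = (V (k + 1) θ - V k θ) - ((Mt θ (k + 1) - Mt θ k : ℝ) : ℂ) := by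
      unfold F; push_cast; ring
    rw [h5]
    refine (norm_sub_le _ _).trans (le_of_eq ?_)
    rw [Complex.norm_real, Real.norm_eq_abs]
  have h2 := Finset.sum_le_sum h1
  rw [← Finset.mul_sum, Finset.sum_add_distrib, Mt_TV_block] at h2
  have h3 := V_TV θ s
  have hK := K2_pos
  have hq := one_le_qsR θ
  have hb : ∀ n : ℕ, 1 ≤ n → |Mt θ n| ≤ K2 := fun n hn =>
    (Mt_bound θ hn).trans (div_le_self hK.le (hq _))
  have h6 := abs_le.mp (hb (4 ^ s) h4s)
  have h7 := abs_le.mp (hb (4 ^ (s + 1) - 1) (by omega))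
  have hf := f_nonneg θ s
  rw [hr1]
  have h8 : 2 * f θ s * (∑ k ∈ Ico (4 ^ s) (4 ^ (s + 1) - 1), ‖V (k + 1) θ - V k θ‖
      + (Mt θ (4 ^ (s + 1) - 1) - Mt θ (4 ^ s))) ≤ 2 * f θ s * (60 + 2 * K2) :=
    mul_le_mul_of_nonneg_left (by linarith) (by positivity)
  linarith

/-- bound for the total edge weight -/
noncomputable def K5 : ℝ := 10 * (60 + 2 * K2) * K4 + 40 * K4 ^ 2

lemma rho_total (S : ℕ) : ∑ k ∈ Ico 1 (4 ^ S), rho θ k ≤ K5 := by
  have h1 : ∀ S : ℕ, ∑ k ∈ Ico 1 (4 ^ S), rho θ k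
      ≤ ∑ s ∈ range S, (2 * (60 + 2 * K2) * f θ s + 2 * f θ s ^ 2 + 2 * f θ (s + 1) ^ 2) := by
    intro S
    induction S with
    | zero => simp
    | succ S ih =>
      rw [split_blocks, Finset.sum_range_succ]
      have := rho_block θ S
      linarith
  refine (h1 S).trans ?_
  rw [Finset.sum_add_distrib, Finset.sum_add_distrib, ← Finset.mul_sum, ← Finset.mul_sum,
    ← Finset.mul_sum]
  have h2 := sum_f_le θ S
  have h3 := sum_f_sq_le θ S
  have h4 : ∑ s ∈ range S, f θ (s + 1) ^ 2 ≤ 10 * K4 ^ 2 := by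
    refine le_trans ?_ (sum_f_sq_le θ (S + 1))
    rw [Finset.sum_range_succ']
    have := sq_nonneg (f θ 0)
    linarith
  have hK := K2_pos
  have h5 : 2 * (60 + 2 * K2) * ∑ s ∈ range S, f θ s ≤ 2 * (60 + 2 * K2) * (5 * K4) :=
    mul_le_mul_of_nonneg_left h2 (by positivity)
  unfold K5
  nlinarith

/-- the absolute constant -/
noncomputable def CQ : ℝ := 2 * K5 + 52 * K2 ^ 2

lemma CQ_pos : 0 < CQ := by
  have := K2_pos
  have := K4_pos
  unfold CQ K5
  positivity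

/-- **Theorem A.** The quadratic variation of the normalized exponential sums along any sequence is
bounded by an absolute constant. -/
theorem quadratic_variation (n : ℕ → ℕ) (hn : Monotone n) (h0 : 1 ≤ n 0) (J : ℕ) :
    ∑ j ∈ range J, ‖V (n (j + 1)) θ - V (n j) θ‖ ^ 2 ≤ CQ := by
  have hK := K2_pos
  have hq := one_le_qsR θ
  have hb : ∀ n : ℕ, 1 ≤ n → |Mt θ n| ≤ K2 := fun n hn =>
    (Mt_bound θ hn).trans (div_le_self hK.le (hq _))
  set w : ℕ → ℝ := fun k => 2 * rho θ k + 4 * K2 * |Mt θ (k + 1) - Mt θ k| with hw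
  have hw0 : ∀ k, 0 ≤ w k := fun k => by
    have := rho_nonneg θ k
    simp only [hw]; positivity
  have h1 : ∀ j, ‖V (n (j + 1)) θ - V (n j) θ‖ ^ 2 ≤ ∑ k ∈ Ico (n j) (n (j + 1)), w k := by
    intro j
    have hj : 1 ≤ n j := h0.trans (hn (Nat.zero_le j))
    have hj' : n j ≤ n (j + 1) := hn (Nat.le_succ j)
    have h2 := F_sq_le θ hj hj'
    have h3 := norm_sub_le_sum (Mt θ) hj'
    simp only [Real.norm_eq_abs] at h3
    have h4 : |Mt θ (n (j + 1)) - Mt θ (n j)| ≤ 2 * K2 := by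
      have h5 := abs_le.mp (hb _ hj)
      have h6 := abs_le.mp (hb _ (hj.trans hj'))
      rw [abs_le]; constructor <;> linarith
    have h5 : |Mt θ (n (j + 1)) - Mt θ (n j)| ^ 2
        ≤ 2 * K2 * ∑ k ∈ Ico (n j) (n (j + 1)), |Mt θ (k + 1) - Mt θ k| := by
      rw [sq]
      exact mul_le_mul h4 h3 (abs_nonneg _) (by positivity)
    have h6 : ‖V (n (j + 1)) θ - V (n j) θ‖
        ≤ ‖F θ (n (j + 1)) - F θ (n j)‖ + |Mt θ (n (j + 1)) - Mt θ (n j)| := by
      have h7 : V (n (j + 1)) θ - V (n j) θ = (F θ (n (j + 1)) - F θ (n j))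
          + ((Mt θ (n (j + 1)) - Mt θ (n j) : ℝ) : ℂ) := by
        unfold F; push_cast; ring
      rw [h7]
      refine (norm_add_le _ _).trans (le_of_eq ?_)
      rw [Complex.norm_real, Real.norm_eq_abs]
    have h8 : ‖V (n (j + 1)) θ - V (n j) θ‖ ^ 2
        ≤ (‖F θ (n (j + 1)) - F θ (n j)‖ + |Mt θ (n (j + 1)) - Mt θ (n j)|) ^ 2 :=
      pow_le_pow_left₀ (norm_nonneg _) h6 2
    simp only [hw]
    rw [Finset.sum_add_distrib, ← Finset.mul_sum, ← Finset.mul_sum]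
    nlinarith [sq_nonneg (‖F θ (n (j + 1)) - F θ (n j)‖ - |Mt θ (n (j + 1)) - Mt θ (n j)|)]
  have h2 : ∀ J, ∑ j ∈ range J, ∑ k ∈ Ico (n j) (n (j + 1)), w k = ∑ k ∈ Ico (n 0) (n J), w k := by
    intro J
    induction J with
    | zero => simp
    | succ J ih =>
      rw [Finset.sum_range_succ, ih,
        Finset.sum_Ico_consecutive w (hn (Nat.zero_le J)) (hn (Nat.le_succ J))]
  refine (Finset.sum_le_sum fun j _ => h1 j).trans ?_
  rw [h2]
  have h3 : ∑ k ∈ Ico (n 0) (n J), w k ≤ ∑ k ∈ Ico 1 (4 ^ (n J)), w k := by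
    refine Finset.sum_le_sum_of_subset_of_nonneg ?_ (fun k _ _ => hw0 k)
    apply Finset.Ico_subset_Ico h0
    exact (Nat.lt_pow_self (by norm_num)).le
  refine h3.trans ?_
  simp only [hw]
  rw [Finset.sum_add_distrib, ← Finset.mul_sum, ← Finset.mul_sum]
  have h4 := rho_total θ (n J)
  have h5 := Mt_TV_le θ (n J)
  have h6 : 4 * K2 * ∑ k ∈ Ico 1 (4 ^ n J), |Mt θ (k + 1) - Mt θ k| ≤ 4 * K2 * (13 * K2) :=
    mul_le_mul_of_nonneg_left h5 (by positivity)
  unfold CQ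
  nlinarith

end Q187.Div
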