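import Mathlib

/-!
# Transference from the circle to Hilbert space isometries
-/

open scoped ComplexConjugate

namespace Q187.Div

variable {H : Type*} [NormedAddCommGroup H] [InnerProductSpace ℂ H]

/-- `e(x) = exp(2πix)` -/
noncomputable def e (x : ℝ) : ℂ := Complex.exp ((2 * Real.pi * x : ℝ) * Complex.I)

/-- discrete Parseval identity -/
lemma parseval (N : ℕ) [NeZero N] (a : ZMod N → H) :
    ∑ k : ZMod N, ‖∑ j : ZMod N, (ZMod.stdAddChar (-(j * k)) : ℂ) • a j‖ ^ 2
      = N * ∑ j : ZMod N, ‖a j‖ ^ 2 := by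
  have hprim : (ZMod.stdAddChar (N := N)).IsPrimitive := ZMod.isPrimitive_stdAddChar N
  have key : ∑ k : ZMod N, inner ℂ (∑ j : ZMod N, (ZMod.stdAddChar (-(j * k)) : ℂ) • a j)
      (∑ j : ZMod N, (ZMod.stdAddChar (-(j * k)) : ℂ) • a j) = (N : ℂ) * ∑ j, inner ℂ (a j) (a j) := by
    simp only [sum_inner, inner_sum, inner_smul_left, inner_smul_right, Finset.mul_sum]
    have hc : ∀ x : ZMod N, conj (ZMod.stdAddChar x : ℂ) = ZMod.stdAddChar (-x) := by
      intro x
      rw [AddChar.map_neg_eq_conj]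
    calc ∑ k : ZMod N, ∑ j : ZMod N, ∑ i : ZMod N, (ZMod.stdAddChar (-(j * k)) : ℂ) *
          (conj (ZMod.stdAddChar (-(i * k)) : ℂ) * inner ℂ (a i) (a j))
        = ∑ j : ZMod N, ∑ i : ZMod N, (∑ k : ZMod N, (ZMod.stdAddChar (k * (i - j)) : ℂ)) *
            inner ℂ (a i) (a j) := by
          rw [Finset.sum_comm]
          refine Finset.sum_congr rfl fun j _ => ?_
          rw [Finset.sum_comm]
          refine Finset.sum_congr rfl fun i _ => ?_
          rw [Finset.sum_mul]
          refine Finset.sum_congr rfl fun k _ => ?_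
          rw [hc, neg_neg, ← mul_assoc, ← AddChar.map_add_eq_mul]
          congr 2; ring_nf
      _ = ∑ j : ZMod N, ∑ i : ZMod N, (if i = j then (N : ℂ) else 0) * inner ℂ (a i) (a j) := by
          refine Finset.sum_congr rfl fun j _ => Finset.sum_congr rfl fun i _ => ?_
          rw [AddChar.sum_mulShift (i - j) hprim]
          simp [sub_eq_zero]
      _ = ∑ j, (N : ℂ) * inner ℂ (a j) (a j) := by
          refine Finset.sum_congr rfl fun i _ => ?_
          rw [Finset.sum_eq_single i]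
          · simp
          · intro j _ hj
            simp [hj]
          · intro h; exact absurd (Finset.mem_univ i) h
  simp only [inner_self_eq_norm_sq_to_K] at key
  have h3 : ((∑ k : ZMod N, ‖∑ j : ZMod N, (ZMod.stdAddChar (-(j * k)) : ℂ) • a j‖ ^ 2 : ℝ) : ℂ)
      = ((N * ∑ j : ZMod N, ‖a j‖ ^ 2 : ℝ) : ℂ) := by
    push_cast
    exact key
  exact_mod_cast h3

/-- convolution with a finite sequence -/
lemma conv_hat (N : ℕ) [NeZero N] (a : ZMod N → H) (s : Finset ℕ) (c : ℕ → ℂ) (t : ZMod N) :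
    ∑ m : ZMod N, (ZMod.stdAddChar (-(m * t)) : ℂ) • (∑ k ∈ s, c k • a (m + k))
      = (∑ k ∈ s, c k * ZMod.stdAddChar ((k : ZMod N) * t)) •
        ∑ m : ZMod N, (ZMod.stdAddChar (-(m * t)) : ℂ) • a m := by
  simp only [Finset.smul_sum, Finset.sum_smul]
  rw [Finset.sum_comm, Finset.sum_comm (s := Finset.univ)]
  refine Finset.sum_congr rfl fun k _ => ?_
  rw [← Equiv.sum_comp (Equiv.addRight (k : ZMod N)) (fun m => (c k *
    ZMod.stdAddChar ((k : ZMod N) * t)) • (ZMod.stdAddChar (-(m * t)) : ℂ) • a m)]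
  refine Finset.sum_congr rfl fun m _ => ?_
  simp only [Equiv.coe_addRight]
  rw [smul_smul, smul_smul]
  congr 1
  have : (ZMod.stdAddChar (-(m * t)) : ℂ)
      = ZMod.stdAddChar ((k : ZMod N) * t) * ZMod.stdAddChar (-((m + (k : ZMod N)) * t)) := by
    rw [← AddChar.map_add_eq_mul]; congr 1; ring
  rw [this]; ring

lemma char_eq_e (N : ℕ) [NeZero N] (k : ℕ) (t : ZMod N) :
    (ZMod.stdAddChar ((k : ZMod N) * t) : ℂ) = e (k * (t.val / N : ℝ)) := by
  have h : (k : ZMod N) * t = (((k * t.val : ℕ) : ℤ) : ZMod N) := by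
    push_cast
    rw [ZMod.natCast_zmod_val]
  rw [h, ZMod.stdAddChar_coe]
  unfold e
  congr 1
  push_cast
  ring

/-- Transference: a bound for the square function of trigonometric polynomials gives the same bound
for isometries of Hilbert spaces. -/
theorem transfer (U : H →ₗᵢ[ℂ] H) {ι : Type*} (J : Finset ι) (n : ℕ) (c : ι → ℕ → ℂ) (C : ℝ)
    (hC : ∀ θ : ℝ, ∑ j ∈ J, ‖∑ k ∈ Finset.range (n + 1), c j k * e (k * θ)‖ ^ 2 ≤ C) (f : H) :
    ∑ j ∈ J, ‖∑ k ∈ Finset.range (n + 1), c j k • (U^[k]) f‖ ^ 2 ≤ C * ‖f‖ ^ 2 := by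
  set S : ℝ := ∑ j ∈ J, ‖∑ k ∈ Finset.range (n + 1), c j k • (U^[k]) f‖ ^ 2 with hS
  have hS0 : 0 ≤ S := Finset.sum_nonneg fun j _ => sq_nonneg _
  have hnorm : ∀ (m : ℕ) (g : H), ‖(U^[m]) g‖ = ‖g‖ := by
    intro m
    induction m with
    | zero => intro g; rfl
    | succ m ih => intro g; rw [Function.iterate_succ_apply, ih, U.norm_map]
  have hiter_add : ∀ (m : ℕ) (g h : H), (U^[m]) (g + h) = (U^[m]) g + (U^[m]) h := by
    intro m
    induction m with
    | zero => intro g h; rfl
    | succ m ih => intro g h; simp only [Function.iterate_succ_apply, map_add, ih]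
  have hiter_smul : ∀ (m : ℕ) (a : ℂ) (g : H), (U^[m]) (a • g) = a • (U^[m]) g := by
    intro m
    induction m with
    | zero => intro a g; rfl
    | succ m ih => intro a g; simp only [Function.iterate_succ_apply, map_smul, ih]
  have hiter_sum : ∀ (m : ℕ) (s : Finset ℕ) (g : ℕ → H),
      (U^[m]) (∑ k ∈ s, g k) = ∑ k ∈ s, (U^[m]) (g k) := by
    intro m s g
    classical
    induction s using Finset.induction_on with
    | empty =>
      simp only [Finset.sum_empty]
      simp [(by simpa using hiter_smul m 0 0 : (U^[m]) 0 = 0)]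
    | insert a s ha ih => rw [Finset.sum_insert ha, Finset.sum_insert ha, hiter_add, ih]
  -- the main inequality for each `K`
  have main : ∀ K : ℕ, 1 ≤ K → K * S ≤ C * ((K + n : ℕ) * ‖f‖ ^ 2) := by
    intro K hK
    have : NeZero (K + n) := ⟨by omega⟩
    set N := K + n with hN
    let a : ZMod N → H := fun m => (U^[m.val]) f
    have ha : ∑ m : ZMod N, ‖a m‖ ^ 2 = N * ‖f‖ ^ 2 := by
      simp only [a, hnorm, Finset.sum_const, Finset.card_univ, ZMod.card, nsmul_eq_mul]
    let b : ι → ZMod N → H := fun j m => ∑ k ∈ Finset.range (n + 1), c j k • a (m + k)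
    have h1 : ∑ j ∈ J, ∑ m : ZMod N, ‖b j m‖ ^ 2 ≤ C * (N * ‖f‖ ^ 2) := by
      have hNpos : (0 : ℝ) < N := by exact_mod_cast Nat.pos_of_ne_zero (NeZero.ne N)
      have h2 : (N : ℝ) * ∑ j ∈ J, ∑ m : ZMod N, ‖b j m‖ ^ 2 ≤ N * (C * (N * ‖f‖ ^ 2)) := by
        rw [Finset.mul_sum]
        calc ∑ j ∈ J, (N : ℝ) * ∑ m : ZMod N, ‖b j m‖ ^ 2
            = ∑ j ∈ J, ∑ t : ZMod N, ‖∑ k ∈ Finset.range (n + 1),
                c j k * e (k * (t.val / N : ℝ))‖ ^ 2 *
                ‖∑ m : ZMod N, (ZMod.stdAddChar (-(m * t)) : ℂ) • a m‖ ^ 2 := by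
              refine Finset.sum_congr rfl fun j _ => ?_
              rw [← parseval N (b j)]
              refine Finset.sum_congr rfl fun t _ => ?_
              rw [conv_hat N a _ (c j) t, norm_smul, mul_pow]
              simp only [char_eq_e]
          _ = ∑ t : ZMod N, (∑ j ∈ J, ‖∑ k ∈ Finset.range (n + 1),
                c j k * e (k * (t.val / N : ℝ))‖ ^ 2) *
                ‖∑ m : ZMod N, (ZMod.stdAddChar (-(m * t)) : ℂ) • a m‖ ^ 2 := by
              rw [Finset.sum_comm]
              refine Finset.sum_congr rfl fun t _ => ?_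
              rw [Finset.sum_mul]
          _ ≤ ∑ t : ZMod N, C * ‖∑ m : ZMod N, (ZMod.stdAddChar (-(m * t)) : ℂ) • a m‖ ^ 2 := by
              refine Finset.sum_le_sum fun t _ => ?_
              exact mul_le_mul_of_nonneg_right (hC _) (sq_nonneg _)
          _ = N * (C * (N * ‖f‖ ^ 2)) := by
              rw [← Finset.mul_sum, parseval, ha]; ring
      exact le_of_mul_le_mul_left h2 hNpos
    refine le_trans ?_ h1
    rw [hS, Finset.mul_sum]
    refine Finset.sum_le_sum fun j _ => ?_
    -- the first `K` shifts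
    have h3 : ∀ m : ℕ, m < K → ‖b j (m : ZMod N)‖ ^ 2
        = ‖∑ k ∈ Finset.range (n + 1), c j k • (U^[k]) f‖ ^ 2 := by
      intro m hm
      have : b j (m : ZMod N) = (U^[m]) (∑ k ∈ Finset.range (n + 1), c j k • (U^[k]) f) := by
        rw [hiter_sum]
        refine Finset.sum_congr rfl fun k hk => ?_
        rw [hiter_smul]
        congr 1
        show (U^[((m : ZMod N) + k).val]) f = _
        have hk' := Finset.mem_range.mp hk
        have hv : ((m : ZMod N) + k).val = m + k := by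
          rw [← Nat.cast_add, ZMod.val_natCast]
          exact Nat.mod_eq_of_lt (by omega)
        rw [hv, Function.iterate_add_apply]
      rw [this, hnorm]
    calc (K : ℝ) * ‖∑ k ∈ Finset.range (n + 1), c j k • (U^[k]) f‖ ^ 2
        = ∑ m ∈ Finset.range K, ‖b j (m : ZMod N)‖ ^ 2 := by
          rw [Finset.sum_congr rfl fun m hm => h3 m (Finset.mem_range.mp hm)]
          simp
      _ = ∑ m ∈ (Finset.range K).image (fun m : ℕ => (m : ZMod N)), ‖b j m‖ ^ 2 := by
          rw [Finset.sum_image]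
          intro x hx y hy hxy
          have hx' := Finset.mem_range.mp hx
          have hy' := Finset.mem_range.mp hy
          have hxy' : (x : ZMod N) = (y : ZMod N) := hxy
          have h4 := congrArg ZMod.val hxy'
          rw [ZMod.val_natCast, ZMod.val_natCast, Nat.mod_eq_of_lt (by omega),
            Nat.mod_eq_of_lt (by omega)] at h4
          exact h4
      _ ≤ ∑ m : ZMod N, ‖b j m‖ ^ 2 :=
          Finset.sum_le_sum_of_subset_of_nonneg (Finset.subset_univ _) fun _ _ _ => sq_nonneg _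
  -- let `K → ∞`
  have hlim : Filter.Tendsto (fun K : ℕ => C * ‖f‖ ^ 2 + C * n * ‖f‖ ^ 2 / K) Filter.atTop
      (nhds (C * ‖f‖ ^ 2 + 0)) := by
    refine Filter.Tendsto.add tendsto_const_nhds ?_
    exact tendsto_const_nhds.div_atTop tendsto_natCast_atTop_atTop
  rw [add_zero] at hlim
  refine ge_of_tendsto hlim ?_
  filter_upwards [Filter.eventually_ge_atTop 1] with K hK
  have hK' : (0 : ℝ) < K := by exact_mod_cast hK
  have h5 := main K hK
  have h6 : S ≤ C * ((K + n : ℕ) * ‖f‖ ^ 2) / K := by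
    rw [le_div_iff₀ hK']; linarith
  refine h6.trans (le_of_eq ?_)
  push_cast
  field_simp

end Q187.Div
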