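import Pool.Agent.Q187.Div.EstTwo

/-!
# Estimates for the normalized sums
-/

open Finset

namespace Q187.Div

variable {n s : ℕ}

/-- normalized exponential sum -/
noncomputable def V (n : ℕ) (θ : ℝ) : ℂ := D n θ / (W n : ℂ)

/-- the main term -/
noncomputable def Mq (q n : ℕ) : ℝ := 1 / q * (1 - 2 * Real.log q / (Real.log n + c0))

/-- the scale parameter -/
noncomputable def xs (θ : ℝ) (s : ℕ) : ℝ := 4 ^ s * |et θ s| / qs θ s

noncomputable def K2 : ℝ := 2 + 3 / c0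

lemma K2_pos : 0 < K2 := by
  have := c0_pos; unfold K2; positivity

noncomputable def K4 : ℝ := 225 * (1 + K2) + 48 * Real.pi

/-- `min (x, 1/x)` -/
noncomputable def g (x : ℝ) : ℝ := if x ≤ 1 then x else 1 / x

noncomputable def f (θ : ℝ) (s : ℕ) : ℝ := K4 * (1 / 2 ^ s + g (xs θ s) / qs θ s)

lemma K4_pos : 0 < K4 := by
  have := K2_pos; have := Real.pi_pos; unfold K4; positivity

lemma xs_nonneg (θ : ℝ) (s : ℕ) : 0 ≤ xs θ s := by unfold xs; positivity

lemma g_nonneg {x : ℝ} (hx : 0 ≤ x) : 0 ≤ g x := by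
  unfold g; split_ifs <;> positivity

lemma f_nonneg (θ : ℝ) (s : ℕ) : 0 ≤ f θ s := by
  have := K4_pos
  have := g_nonneg (xs_nonneg θ s)
  unfold f; positivity

lemma D_zero (n : ℕ) : D n 0 = (W n : ℂ) := by
  unfold D W
  push_cast
  simp [e_zero]

lemma qs_zero (s : ℕ) : qs 0 s = 1 := by
  have h1 := qs_pos 0 s
  have h2 := qs_min 0 s (m := 1) one_pos (by simp [dn])
  omega

lemma et_zero (s : ℕ) : et 0 s = 0 := by
  unfold et ps; simp

lemma W_approx (h1 : 4 ^ s ≤ n) (h2 : n < 4 ^ (s + 1)) :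
    |W n - n * (Real.log n + c0)| ≤ 75 * Nat.sqrt n * (1 + Real.log n) := by
  have h3 := D_sub_P 0 h1 h2
  have h4 := typeI 0 h1 h2
  rw [qs_zero, et_zero, D_zero] at *
  have h5 : ((W n - n * (Real.log n + c0) : ℝ) : ℂ)
      = ((W n : ℂ) - 2 * P n 0 s) + (2 * P n 0 s
        - (((n : ℝ) / (1 : ℕ) * (Real.log n - 2 * Real.log ((1 : ℕ) : ℝ) + c0) : ℝ) : ℂ)) := by
    push_cast
    simp
  rw [← Real.norm_eq_abs, ← Complex.norm_real, h5]
  refine (norm_add_le _ _).trans ?_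
  simp only [abs_zero, mul_zero, zero_mul, add_zero] at h4
  linarith

lemma Mq_bound (θ : ℝ) (h1 : 4 ^ s ≤ n) : |Mq (qs θ s) n| ≤ K2 / qs θ s := by
  have hc := c0_pos
  have hln := log_nonneg' h1
  have hlq := log_qs_le θ h1
  have hlq0 := log_qs_nonneg θ s
  have hq0 : (0 : ℝ) < qs θ s := by exact_mod_cast qs_pos θ s
  have hlog2 := Real.log_two_lt_d9
  have hd : 0 < Real.log n + c0 := by linarith
  unfold Mq
  rw [abs_mul, abs_of_pos (by positivity), div_mul_eq_mul_div, one_mul]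
  apply div_le_div_of_nonneg_right _ hq0.le
  have h3 : 0 ≤ 2 * Real.log (qs θ s) / (Real.log n + c0) := by positivity
  have h4 : 2 * Real.log (qs θ s) / (Real.log n + c0) ≤ 1 + 3 / c0 := by
    rw [div_le_iff₀ hd]
    have h5 : (1 + 3 / c0) * (Real.log n + c0) = Real.log n + c0 + 3 / c0 * Real.log n + 3 := by
      field_simp
      ring
    rw [h5]
    have : 0 ≤ 3 / c0 * Real.log n := by positivity
    linarith
  unfold K2
  have : 0 < 3 / c0 := by positivity
  rw [abs_le]; constructor <;> linarith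

lemma Mq_mono (q : ℕ) (hq : 0 < q) {m n : ℕ} (hm : 1 ≤ m) (h : m ≤ n) : Mq q m ≤ Mq q n := by
  have hc := c0_pos
  have hm' : (1 : ℝ) ≤ m := by exact_mod_cast hm
  have h1 : Real.log m ≤ Real.log n := Real.log_le_log (by positivity) (by exact_mod_cast h)
  have h2 : 0 ≤ Real.log m := Real.log_nonneg hm'
  have h3 : 0 ≤ Real.log q := Real.log_nonneg (by exact_mod_cast hq)
  unfold Mq
  apply mul_le_mul_of_nonneg_left _ (by positivity)
  have h4 : 2 * Real.log q / (Real.log n + c0) ≤ 2 * Real.log q / (Real.log m + c0) :=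
    div_le_div_of_nonneg_left (by positivity) (by positivity) (by linarith)
  linarith

lemma sqrt_div_le (h1 : 4 ^ s ≤ n) (h2 : n < 4 ^ (s + 1)) : (Nat.sqrt n : ℝ) / n ≤ 1 / 2 ^ s := by
  have hAb := sqrt_bounds h1 h2
  have hn0 : 0 < n := lt_of_lt_of_le (by positivity) h1
  rw [div_le_div_iff₀ (by exact_mod_cast hn0) (by positivity), one_mul]
  have h3 : Nat.sqrt n * 2 ^ s ≤ n := by
    have h4 : Nat.sqrt n * Nat.sqrt n ≤ n := Nat.sqrt_le n
    exact (Nat.mul_le_mul_left _ hAb.1).trans h4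
  exact_mod_cast h3

lemma W_pos' (h1 : 4 ^ s ≤ n) : 0 < W n := by
  have hn0 : 0 < n := lt_of_lt_of_le (by positivity) h1
  have : (0 : ℝ) < n := by exact_mod_cast hn0
  exact lt_of_lt_of_le this (le_W n)

lemma V_typeI (θ : ℝ) (h1 : 4 ^ s ≤ n) (h2 : n < 4 ^ (s + 1)) :
    ‖V n θ - (Mq (qs θ s) n : ℂ)‖ ≤ K4 * (1 / 2 ^ s + xs θ s / qs θ s) := by
  have h3 := D_sub_P θ h1 h2
  have h4 := typeI θ h1 h2
  have h5 := W_approx h1 h2
  have hM := Mq_bound θ h1
  have hW := W_pos' h1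
  have hWl := le_W' n
  have hA := sqrt_div_le h1 h2
  have hK := K2_pos
  have hpi := Real.pi_pos
  have hln := log_nonneg' h1
  have hc := c0_pos
  have hn0 : 0 < n := lt_of_lt_of_le (by positivity) h1
  have hnR : (0 : ℝ) < n := by exact_mod_cast hn0
  have hn4 : (n : ℝ) ≤ 4 * 4 ^ s := by
    have : n ≤ 4 ^ (s + 1) := h2.le
    rw [pow_succ] at this
    have : (n : ℝ) ≤ ((4 ^ s * 4 : ℕ) : ℝ) := by exact_mod_cast this
    push_cast at this; linarith
  have hq1 : (1 : ℝ) ≤ qs θ s := by exact_mod_cast qs_pos θ s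
  have hxs : xs θ s = 4 ^ s * |et θ s| / qs θ s := rfl
  set q : ℝ := (qs θ s : ℝ) with hq
  set A : ℝ := (Nat.sqrt n : ℝ) with hAdef
  set L : ℝ := 1 + Real.log n with hL
  set η := et θ s with hη
  set M := Mq (qs θ s) n with hMdef
  have hL1 : 1 ≤ L := by linarith
  have hA0 : 0 ≤ A := by positivity
  have hmain : (n : ℝ) / q * (Real.log n - 2 * Real.log q + c0) = M * (n * (Real.log n + c0)) := by
    rw [hMdef]; unfold Mq
    have : Real.log n + c0 ≠ 0 := by linarith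
    rw [← hq]
    field_simp
    ring
  rw [hmain] at h4
  have hMK : |M| ≤ K2 := hM.trans (div_le_self hK.le hq1)
  have hW0 : (W n : ℂ) ≠ 0 := by exact_mod_cast hW.ne'
  have hV : V n θ - (M : ℂ) = ((D n θ - 2 * P n θ s)
      + (2 * P n θ s - ((M * (n * (Real.log n + c0)) : ℝ) : ℂ))
      + ((M * (n * (Real.log n + c0) - W n) : ℝ) : ℂ)) / (W n : ℂ) := by
    unfold V
    rw [eq_div_iff hW0, sub_mul, div_mul_cancel₀ _ hW0]
    push_cast; ring
  rw [hV, norm_div, Complex.norm_real, Real.norm_eq_abs, abs_of_pos hW]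
  rw [div_le_iff₀ hW]
  have h6 : ‖((M * (n * (Real.log n + c0) - W n) : ℝ) : ℂ)‖ ≤ K2 * (75 * A * L) := by
    rw [Complex.norm_real, Real.norm_eq_abs, abs_mul]
    refine mul_le_mul hMK ?_ (abs_nonneg _) hK.le
    rw [abs_sub_comm]; exact h5
  have h7 : ‖(D n θ - 2 * P n θ s)
      + (2 * P n θ s - ((M * (n * (Real.log n + c0)) : ℝ) : ℂ))
      + ((M * (n * (Real.log n + c0) - W n) : ℝ) : ℂ)‖
      ≤ 49 * A * L + (26 * A * L + 4 * Real.pi * |η| * ((n : ℝ) ^ 2 / q ^ 2) * L)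
        + K2 * (75 * A * L) := by
    refine (norm_add_le _ _).trans ?_
    refine add_le_add ((norm_add_le _ _).trans ?_) h6
    exact add_le_add h3 h4
  refine h7.trans ?_
  -- compare with `W n ≥ n L / 3`
  have h8 : 49 * A * L + (26 * A * L + 4 * Real.pi * |η| * ((n : ℝ) ^ 2 / q ^ 2) * L)
        + K2 * (75 * A * L)
      = (225 * (1 + K2) * (A / n) + 12 * Real.pi * (|η| * n / q ^ 2)) * (n * L / 3) := by
    field_simp
    ring
  rw [h8]
  have h9 : |η| * n / q ^ 2 ≤ 4 * (xs θ s / q) := by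
    rw [hxs]
    have : 4 * (4 ^ s * |η| / q / q) = |η| * (4 * 4 ^ s) / q ^ 2 := by field_simp
    rw [this]
    gcongr
  have h10 : 225 * (1 + K2) * (A / n) + 12 * Real.pi * (|η| * n / q ^ 2)
      ≤ K4 * (1 / 2 ^ s + xs θ s / q) := by
    have hx0 : 0 ≤ xs θ s / q := by
      have := xs_nonneg θ s; positivity
    have h2s : (0 : ℝ) ≤ 1 / 2 ^ s := by positivity
    have h11 : 225 * (1 + K2) * (A / n) ≤ 225 * (1 + K2) * (1 / 2 ^ s) :=
      mul_le_mul_of_nonneg_left hA (by positivity)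
    have h12 : 12 * Real.pi * (|η| * n / q ^ 2) ≤ 12 * Real.pi * (4 * (xs θ s / q)) :=
      mul_le_mul_of_nonneg_left h9 (by positivity)
    unfold K4
    have h13 : 0 ≤ 48 * Real.pi * (1 / 2 ^ s) := by positivity
    have h14 : 0 ≤ 225 * (1 + K2) * (xs θ s / q) := by positivity
    nlinarith
  have h15 : 0 ≤ K4 * (1 / 2 ^ s + xs θ s / q) := by
    have := K4_pos
    have hx0 : 0 ≤ xs θ s / q := by
      have := xs_nonneg θ s; positivity
    positivity
  calc (225 * (1 + K2) * (A / n) + 12 * Real.pi * (|η| * n / q ^ 2)) * (n * L / 3)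
      ≤ K4 * (1 / 2 ^ s + xs θ s / q) * (n * L / 3) :=
        mul_le_mul_of_nonneg_right h10 (by positivity)
    _ ≤ K4 * (1 / 2 ^ s + xs θ s / q) * W n := mul_le_mul_of_nonneg_left hWl h15

lemma V_typeII (θ : ℝ) (h1 : 4 ^ s ≤ n) (h2 : n < 4 ^ (s + 1)) (hη : et θ s ≠ 0) :
    ‖V n θ‖ ≤ K4 * (1 / 2 ^ s + 1 / xs θ s / qs θ s) := by
  have h3 := D_sub_P θ h1 h2
  have h4 := typeII θ h1 h2 hη
  have hW := W_pos' h1
  have hWl := le_W' n
  have hA := sqrt_div_le h1 h2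
  have hK := K2_pos
  have hpi := Real.pi_gt_three
  have hln := log_nonneg' h1
  have hn0 : 0 < n := lt_of_lt_of_le (by positivity) h1
  have hnR : (0 : ℝ) < n := by exact_mod_cast hn0
  have hn4 : ((4 : ℝ) ^ s) ≤ n := by exact_mod_cast h1
  have hq0 : (0 : ℝ) < qs θ s := by exact_mod_cast qs_pos θ s
  have hxs : xs θ s = 4 ^ s * |et θ s| / qs θ s := rfl
  have hηp : 0 < |et θ s| := abs_pos.mpr hη
  set q : ℝ := (qs θ s : ℝ) with hq
  set A : ℝ := (Nat.sqrt n : ℝ) with hAdef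
  set L : ℝ := 1 + Real.log n with hL
  set η := et θ s with hη'
  have hL1 : 1 ≤ L := by linarith
  have hA0 : 0 ≤ A := by positivity
  unfold V
  rw [norm_div, Complex.norm_real, Real.norm_eq_abs, abs_of_pos hW, div_le_iff₀ hW]
  have h5 : ‖D n θ‖ ≤ 49 * A * L + L / |η| := by
    have : D n θ = (D n θ - 2 * P n θ s) + 2 * P n θ s := by ring
    rw [this]
    exact (norm_add_le _ _).trans (add_le_add h3 h4)
  refine h5.trans ?_
  have h6 : 49 * A * L + L / |η| = (147 * (A / n) + 3 * (1 / (n * |η|))) * (n * L / 3) := by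
    field_simp
    ring
  rw [h6]
  have h7 : 1 / (n * |η|) ≤ 1 / xs θ s / q := by
    have h8 : 1 / xs θ s / q = 1 / (4 ^ s * |η|) := by rw [hxs]; field_simp
    rw [h8]
    apply one_div_le_one_div_of_le (by positivity)
    gcongr
  have hxpos : 0 < xs θ s := by rw [hxs]; positivity
  have h10 : 147 * (A / n) + 3 * (1 / (n * |η|)) ≤ K4 * (1 / 2 ^ s + 1 / xs θ s / q) := by
    have hx0 : 0 ≤ 1 / xs θ s / q := by positivity
    have h2s : (0 : ℝ) ≤ 1 / 2 ^ s := by positivity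
    have hK1 : 147 ≤ K4 := by unfold K4; linarith
    have hK3 : 3 ≤ K4 := by linarith
    have h11 : 147 * (A / n) ≤ K4 * (1 / 2 ^ s) := by
      refine mul_le_mul hK1 hA (by positivity) (by linarith)
    have h12 : 3 * (1 / (n * |η|)) ≤ K4 * (1 / xs θ s / q) :=
      mul_le_mul hK3 h7 (by positivity) (by linarith)
    linarith
  have h15 : 0 ≤ K4 * (1 / 2 ^ s + 1 / xs θ s / q) := by
    have := K4_pos
    positivity
  calc (147 * (A / n) + 3 * (1 / (n * |η|))) * (n * L / 3)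
      ≤ K4 * (1 / 2 ^ s + 1 / xs θ s / q) * (n * L / 3) :=
        mul_le_mul_of_nonneg_right h10 (by positivity)
    _ ≤ K4 * (1 / 2 ^ s + 1 / xs θ s / q) * W n := mul_le_mul_of_nonneg_left hWl h15

/-- comparison function -/
noncomputable def Mt (θ : ℝ) (n : ℕ) : ℝ :=
  if xs θ (Nat.log 4 n) ≤ 1 then Mq (qs θ (Nat.log 4 n)) n else 0

lemma log_bounds (hn : 1 ≤ n) : 4 ^ (Nat.log 4 n) ≤ n ∧ n < 4 ^ (Nat.log 4 n + 1) :=
  ⟨Nat.pow_log_le_self 4 (by omega), Nat.lt_pow_succ_log_self (by norm_num) n⟩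

lemma V_sub_Mt (θ : ℝ) (hn : 1 ≤ n) : ‖V n θ - (Mt θ n : ℂ)‖ ≤ f θ (Nat.log 4 n) := by
  obtain ⟨h1, h2⟩ := log_bounds hn
  unfold Mt f g
  split_ifs with h
  · exact V_typeI θ h1 h2
  · have hη : et θ (Nat.log 4 n) ≠ 0 := by
      intro h0
      apply h
      unfold xs; rw [h0]; simp
    rw [Complex.ofReal_zero, sub_zero]
    exact V_typeII θ h1 h2 hη

lemma Mt_bound (θ : ℝ) (hn : 1 ≤ n) : |Mt θ n| ≤ K2 / qs θ (Nat.log 4 n) := by
  obtain ⟨h1, h2⟩ := log_bounds hn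
  unfold Mt
  split_ifs with h
  · exact Mq_bound θ h1
  · rw [abs_zero]; have := K2_pos; positivity

end Q187.Div
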